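import Pool.Agent.N918.G3.GEO

/-!
# Systems of positions along multi-level paths (helper38), page MP_d69e80_al

Basic lemmas: subgroups generated by conjugates, and commutation of words in the levels.
-/

set_option autoImplicit false
set_option linter.unusedSectionVars false

namespace Pool.Agent.K9h38.GG

open Pool.Agent.N600.G3 (hh)
open scoped Pointwise

universe u

variable {G : Type u} [Group G]

/-- the subgroup generated by the conjugates `p d p⁻¹`, `p ∈ P`, `d ∈ D` -/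
def EE (D P : Set G) : Subgroup G :=
  Subgroup.closure {x | ∃ p ∈ P, ∃ d ∈ D, x = p * d * p⁻¹}

lemma mem_EE {D P : Set G} {p d : G} (hp : p ∈ P) (hd : d ∈ D) : p * d * p⁻¹ ∈ EE D P :=
  Subgroup.subset_closure ⟨p, hp, d, hd, rfl⟩

lemma EE_le {D P : Set G} {H : Subgroup G} (h : ∀ p ∈ P, ∀ d ∈ D, p * d * p⁻¹ ∈ H) :
    EE D P ≤ H := by
  unfold EE
  rw [Subgroup.closure_le]
  rintro _ ⟨p, hp, d, hd, rfl⟩
  exact h p hp d hd

lemma EE_mono {D P P' : Set G} (h : P ⊆ P') : EE D P ≤ EE D P' :=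
  EE_le fun _ hp _ hd => mem_EE (h hp) hd

/-- conjugation of generated subgroups -/
lemma conj_mem_of {D P : Set G} {H : Subgroup G} {g : G}
    (h : ∀ p ∈ P, ∀ d ∈ D, (g * p) * d * (g * p)⁻¹ ∈ H) {x : G} (hx : x ∈ EE D P) :
    g * x * g⁻¹ ∈ H := by
  have : EE D P ≤ H.comap (MulAut.conj g).toMonoidHom := by
    refine EE_le fun p hp d hd => ?_
    rw [Subgroup.mem_comap]
    have e : (MulAut.conj g).toMonoidHom (p * d * p⁻¹) = (g * p) * d * (g * p)⁻¹ := by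
      show g * (p * d * p⁻¹) * g⁻¹ = _
      group
    rw [e]
    exact h p hp d hd
  exact this hx

lemma EE_conj {D P P' : Set G} {g : G} (h : ∀ p ∈ P, g * p ∈ P') {x : G} (hx : x ∈ EE D P) :
    g * x * g⁻¹ ∈ EE D P' :=
  conj_mem_of (fun p hp _ hd => mem_EE (h p hp) hd) hx

/-- levels of generators -/
structure Lev (D : Set G) (S : ℕ → Set G) (K : ℕ → Subgroup G) (k : ℕ) : Prop where
  Kk : K k = ⊥
  Kj : ∀ j < k, K j = Subgroup.closure (S j ∪ (K (j + 1) : Set G))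
  sym : ∀ j < k, (S j)⁻¹ = S j
  one : ∀ j < k, (1 : G) ∈ S j
  com : ∀ j i, j ≤ i → i < k → ∀ s ∈ S j, ∀ t ∈ S i,
    ∃ e ∈ EE D (K (i + 1)), ∃ κ ∈ K (i + 1), t * s = e * κ * s * t

section

variable {D : Set G} {S : ℕ → Set G} {K : ℕ → Subgroup G} {k : ℕ}

lemma Lev.K_succ_le (h : Lev D S K k) {j : ℕ} (hj : j < k) : K (j + 1) ≤ K j := by
  rw [h.Kj j hj]
  intro x hx
  exact Subgroup.subset_closure (Or.inr hx)

lemma Lev.K_le (h : Lev D S K k) {j i : ℕ} (hji : j ≤ i) (hi : i ≤ k) : K i ≤ K j := by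
  induction i, hji using Nat.le_induction with
  | base => exact le_rfl
  | succ n hn ih => exact (h.K_succ_le (by omega)).trans (ih (by omega))

lemma Lev.S_sub (h : Lev D S K k) {j : ℕ} (hj : j < k) {s : G} (hs : s ∈ S j) : s ∈ K j := by
  rw [h.Kj j hj]
  exact Subgroup.subset_closure (Or.inl hs)

lemma Lev.S_pow_sub (h : Lev D S K k) {j : ℕ} (hj : j < k) (n : ℕ) :
    ∀ s ∈ (S j) ^ n, s ∈ K j := by
  induction n with
  | zero =>
    intro s hs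
    rw [pow_zero, Set.mem_one] at hs
    rw [hs]; exact one_mem _
  | succ n ih =>
    intro s hs
    rw [pow_succ] at hs
    obtain ⟨a, ha, b, hb, rfl⟩ := Set.mem_mul.1 hs
    exact mul_mem (ih a ha) (h.S_sub hj hb)

lemma Lev.sym_mem (h : Lev D S K k) {j : ℕ} (hj : j < k) {s : G} (hs : s ∈ S j) :
    s⁻¹ ∈ S j := by
  rw [← h.sym j hj]
  exact Set.inv_mem_inv.2 hs

/-- elements of deeper levels can be pushed through a letter of level `j` -/
lemma Lev.push (h : Lev D S K k) {j : ℕ} {s : G} (hs : s ∈ S j) :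
    ∀ n i, i + n = k → j + 1 ≤ i → ∀ κ ∈ K i, ∃ e ∈ EE D (K (j + 1)), ∃ κ' ∈ K i,
      κ * s = e * s * κ' := by
  intro n
  induction n with
  | zero =>
    intro i hi hji κ hκ
    have : i = k := by omega
    subst this
    rw [h.Kk, Subgroup.mem_bot] at hκ
    refine ⟨1, one_mem _, 1, one_mem _, ?_⟩
    rw [hκ]; group
  | succ n ih =>
    intro i hi hji κ hκ
    have hik : i < k := by omega
    have hKi : K i ≤ K (j + 1) := h.K_le hji (by omega)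
    have hKi1 : K (i + 1) ≤ K i := h.K_succ_le hik
    have key : ∀ x ∈ Subgroup.closure (S i ∪ (K (i + 1) : Set G)),
        ∃ e ∈ EE D (K (j + 1)), ∃ κ' ∈ K i, x * s = e * s * κ' := by
      intro x hx
      induction hx using Subgroup.closure_induction with
      | mem x hx =>
        rcases hx with hx | hx
        · obtain ⟨e, he, κ₁, hκ₁, h1⟩ := h.com j i (by omega) hik s hs x hx
          obtain ⟨e', he', κ₂, hκ₂, h2⟩ := ih (i + 1) (by omega) (by omega) κ₁ hκ₁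
          refine ⟨e * e', mul_mem (EE_mono (by exact_mod_cast (h.K_le (by omega) (by omega) :
            K (i + 1) ≤ K (j + 1))) he) he', κ₂ * x,
            mul_mem (hKi1 hκ₂) (h.S_sub hik hx), ?_⟩
          rw [h1, mul_assoc e κ₁ s, h2]
          group
        · obtain ⟨e', he', κ₂, hκ₂, h2⟩ := ih (i + 1) (by omega) (by omega) x hx
          exact ⟨e', he', κ₂, hKi1 hκ₂, h2⟩
      | one => exact ⟨1, one_mem _, 1, one_mem _, by group⟩
      | mul x y hx hy ihx ihy =>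
        obtain ⟨e, he, κ₁, hκ₁, h1⟩ := ihx
        obtain ⟨e', he', κ₂, hκ₂, h2⟩ := ihy
        have hx' : x ∈ K (j + 1) := hKi (by rw [h.Kj i hik]; exact hx)
        refine ⟨(x * e' * x⁻¹) * e, mul_mem (EE_conj (fun p hp => mul_mem hx' hp) he') he,
          κ₁ * κ₂, mul_mem hκ₁ hκ₂, ?_⟩
        calc x * y * s = x * (y * s) := by group
          _ = x * e' * x⁻¹ * (x * s) * κ₂ := by rw [h2]; group
          _ = _ := by rw [h1]; group
      | inv x hx ihx =>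
        obtain ⟨e, he, κ₁, hκ₁, h1⟩ := ihx
        have hx' : x ∈ K (j + 1) := hKi (by rw [h.Kj i hik]; exact hx)
        refine ⟨(x⁻¹ * e⁻¹ * x⁻¹⁻¹), EE_conj (fun p hp => mul_mem (inv_mem hx') hp)
          (inv_mem he), κ₁⁻¹, inv_mem hκ₁, ?_⟩
        have h3 : s = e⁻¹ * (x * s) * κ₁⁻¹ := by rw [h1]; group
        calc x⁻¹ * s = x⁻¹ * (e⁻¹ * (x * s) * κ₁⁻¹) := by rw [← h3]
          _ = _ := by group
    exact key κ (by rw [← h.Kj i hik]; exact hκ)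

lemma Lev.push' (h : Lev D S K k) {j i : ℕ} {s : G} (hs : s ∈ S j) (hji : j + 1 ≤ i)
    (hi : i ≤ k) {κ : G} (hκ : κ ∈ K i) :
    ∃ e ∈ EE D (K (j + 1)), ∃ κ' ∈ K i, κ * s = e * s * κ' :=
  h.push hs (k - i) i (by omega) hji κ hκ

/-- letters of level `i ≥ j` can be pushed through a letter of level `j` -/
lemma Lev.pushS (h : Lev D S K k) {j i : ℕ} {s t : G} (hs : s ∈ S j) (hji : j ≤ i)
    (hi : i < k) (ht : t ∈ S i) :
    ∃ e ∈ EE D (K (j + 1)), ∃ κ ∈ K (i + 1), t * s = e * s * κ * t := by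
  obtain ⟨e, he, κ₁, hκ₁, h1⟩ := h.com j i hji hi s hs t ht
  obtain ⟨e', he', κ₂, hκ₂, h2⟩ := h.push' hs (by omega : j + 1 ≤ i + 1) (by omega) hκ₁
  refine ⟨e * e', mul_mem (EE_mono (by exact_mod_cast (h.K_le (by omega) (by omega) :
    K (i + 1) ≤ K (j + 1))) he) he', κ₂, hκ₂, ?_⟩
  rw [h1, mul_assoc e κ₁ s, h2]
  group

/-! ### words in the letters of one level -/

/-- positions `y κ`, `y` a word with less than `n` letters of `S`, `κ ∈ K'` -/
def PP (S : Set G) (K' : Subgroup G) (n : ℕ) : Set G :=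
  {x | ∃ m < n, ∃ y ∈ S ^ m, ∃ κ ∈ K', x = y * κ}

/-- positions along a path -/
def PV (s : ℕ → G) (K' : Subgroup G) (n : ℕ) : Set G :=
  {x | ∃ m < n, ∃ κ ∈ K', x = hh s m * κ}

lemma PP_mono {S : Set G} {K' : Subgroup G} {n m : ℕ} (h : n ≤ m) : PP S K' n ⊆ PP S K' m := by
  rintro _ ⟨a, ha, y, hy, κ, hκ, rfl⟩
  exact ⟨a, by omega, y, hy, κ, hκ, rfl⟩

lemma PV_mono {s : ℕ → G} {K' : Subgroup G} {n m : ℕ} (h : n ≤ m) :
    PV s K' n ⊆ PV s K' m := by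
  rintro _ ⟨a, ha, κ, hκ, rfl⟩
  exact ⟨a, by omega, κ, hκ, rfl⟩

lemma conj_PP {S : Set G} {K' : Subgroup G} {n m : ℕ} {y : G} (hy : y ∈ S ^ m) {x : G}
    (hx : x ∈ EE D (PP S K' n)) : y * x * y⁻¹ ∈ EE D (PP S K' (m + n)) := by
  refine EE_conj ?_ hx
  rintro _ ⟨a, ha, y', hy', κ, hκ, rfl⟩
  refine ⟨m + a, by omega, y * y', ?_, κ, hκ, by group⟩
  rw [pow_add]
  exact Set.mul_mem_mul hy hy'

lemma conj_K {S : Set G} {K' : Subgroup G} {m : ℕ} {y : G} (hy : y ∈ S ^ m) {x : G}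
    (hx : x ∈ EE D (K' : Set G)) : y * x * y⁻¹ ∈ EE D (PP S K' (m + 1)) := by
  refine EE_conj ?_ hx
  intro κ hκ
  exact ⟨m, by omega, y, hy, κ, hκ, rfl⟩

variable (h : Lev D S K k) {j : ℕ} (hj : j < k)

include h hj

lemma push_word : ∀ m : ℕ, ∀ κ ∈ K (j + 1), ∀ y ∈ (S j) ^ m,
    ∃ w ∈ EE D (PP (S j) (K (j + 1)) m), ∃ κ' ∈ K (j + 1), κ * y = w * y * κ' := by
  intro m
  induction m with
  | zero =>
    intro κ hκ y hy
    rw [pow_zero, Set.mem_one] at hy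
    exact ⟨1, one_mem _, κ, hκ, by rw [hy]; group⟩
  | succ m ih =>
    intro κ hκ y hy
    rw [pow_succ] at hy
    obtain ⟨a, ha, s, hs, rfl⟩ := Set.mem_mul.1 hy
    obtain ⟨w, hw, κ₁, hκ₁, h1⟩ := ih κ hκ a ha
    obtain ⟨e, he, κ₂, hκ₂, h2⟩ := h.push' hs le_rfl (by omega) hκ₁
    refine ⟨w * (a * e * a⁻¹), mul_mem (EE_mono (PP_mono (by omega)) hw) (conj_K ha he),
      κ₂, hκ₂, ?_⟩
    calc κ * (a * s) = (κ * a) * s := by group
      _ = w * a * (κ₁ * s) := by rw [h1]; group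
      _ = _ := by rw [h2]; group

lemma norm_W {n : ℕ} {κ : G} (hκ : κ ∈ K (j + 1)) {x : G}
    (hx : x ∈ EE D (PP (S j) (K (j + 1)) n)) :
    κ * x * κ⁻¹ ∈ EE D (PP (S j) (K (j + 1)) n) := by
  refine conj_mem_of ?_ hx
  rintro _ ⟨a, ha, y, hy, κ₁, hκ₁, rfl⟩ d hd
  obtain ⟨w, hw, κ₂, hκ₂, h1⟩ := push_word h hj a κ hκ y hy
  have e : (κ * (y * κ₁)) * d * (κ * (y * κ₁))⁻¹ =
      w * ((y * (κ₂ * κ₁)) * d * (y * (κ₂ * κ₁))⁻¹) * w⁻¹ := by
    have : κ * (y * κ₁) = w * (y * (κ₂ * κ₁)) := by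
      calc κ * (y * κ₁) = (κ * y) * κ₁ := by group
        _ = _ := by rw [h1]; group
    rw [this]; group
  rw [e]
  have hw' := EE_mono (D := D) (PP_mono (le_of_lt ha)) hw
  exact mul_mem (mul_mem hw' (mem_EE ⟨a, ha, y, hy, _, mul_mem hκ₂ hκ₁, rfl⟩ hd)) (inv_mem hw')

lemma swap_two {s t : G} (hs : s ∈ S j) (ht : t ∈ S j) :
    ∃ w ∈ EE D (PP (S j) (K (j + 1)) 2), ∃ κ ∈ K (j + 1), s * t = w * (t * s) * κ := by
  obtain ⟨e, he, κ₁, hκ₁, h1⟩ := h.com j j le_rfl hj t ht s hs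
  obtain ⟨e', he', κ₂, hκ₂, h2⟩ := h.push' ht le_rfl (by omega) hκ₁
  obtain ⟨e'', he'', κ₃, hκ₃, h3⟩ := h.push' hs le_rfl (by omega) hκ₂
  have hK : ((K (j + 1) : Subgroup G) : Set G) ⊆ PP (S j) (K (j + 1)) 2 := by
    intro κ hκ
    exact ⟨0, by omega, 1, by simp, κ, hκ, by group⟩
  refine ⟨e * e' * (t * e'' * t⁻¹), mul_mem (mul_mem (EE_mono hK he) (EE_mono hK he')) ?_,
    κ₃, hκ₃, ?_⟩
  · exact conj_K (m := 1) (by rw [pow_one]; exact ht) he''
  · calc s * t = e * (κ₁ * t) * s := by rw [h1]; group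
      _ = e * e' * t * (κ₂ * s) := by rw [h2]; group
      _ = _ := by rw [h3]; group

lemma swap_one : ∀ q : ℕ, ∀ s ∈ S j, ∀ y ∈ (S j) ^ q,
    ∃ w ∈ EE D (PP (S j) (K (j + 1)) (q + 1)), ∃ κ ∈ K (j + 1), s * y = w * (y * s) * κ := by
  intro q
  induction q with
  | zero =>
    intro s hs y hy
    rw [pow_zero, Set.mem_one] at hy
    exact ⟨1, one_mem _, 1, one_mem _, by rw [hy]; group⟩
  | succ q ih =>
    intro s hs y hy
    rw [pow_succ] at hy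
    obtain ⟨y', hy', t, ht, rfl⟩ := Set.mem_mul.1 hy
    obtain ⟨w, hw, κ, hκ, h1⟩ := ih s hs y' hy'
    obtain ⟨e, he, κ₁, hκ₁, h2⟩ := h.push' ht le_rfl (by omega) hκ
    obtain ⟨w₂, hw₂, κ₂, hκ₂, h3⟩ := swap_two h hj hs ht
    have hys : y' * s ∈ (S j) ^ (q + 1) := by
      rw [pow_succ]; exact Set.mul_mem_mul hy' hs
    refine ⟨w * ((y' * s) * e * (y' * s)⁻¹) * (y' * w₂ * y'⁻¹), mul_mem (mul_mem
      (EE_mono (PP_mono (by omega)) hw) (conj_K hys he)) ?_, κ₂ * κ₁, mul_mem hκ₂ hκ₁, ?_⟩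
    · exact EE_mono (PP_mono (by omega)) (conj_PP hy' hw₂)
    · calc s * (y' * t) = (s * y') * t := by group
        _ = w * (y' * s) * (κ * t) := by rw [h1]; group
        _ = w * ((y' * s) * e * (y' * s)⁻¹) * y' * (s * t) * κ₁ := by rw [h2]; group
        _ = _ := by rw [h3]; group

lemma swap_words : ∀ p q : ℕ, ∀ x ∈ (S j) ^ p, ∀ y ∈ (S j) ^ q,
    ∃ w ∈ EE D (PP (S j) (K (j + 1)) (p + q)), ∃ κ ∈ K (j + 1), x * y = w * (y * x) * κ := by
  intro p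
  induction p with
  | zero =>
    intro q x hx y hy
    rw [pow_zero, Set.mem_one] at hx
    exact ⟨1, one_mem _, 1, one_mem _, by rw [hx]; group⟩
  | succ p ih =>
    intro q x hx y hy
    rw [pow_succ] at hx
    obtain ⟨x', hx', s, hs, rfl⟩ := Set.mem_mul.1 hx
    obtain ⟨w, hw, κ, hκ, h1⟩ := swap_one h hj q s hs y hy
    obtain ⟨w', hw', κ', hκ', h2⟩ := ih q x' hx' y hy
    obtain ⟨e, he, κ₁, hκ₁, h3⟩ := h.push' hs le_rfl (by omega) hκ'
    have hyx : y * x' ∈ (S j) ^ (q + p) := by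
      rw [pow_add]; exact Set.mul_mem_mul hy hx'
    refine ⟨(x' * w * x'⁻¹) * w' * ((y * x') * e * (y * x')⁻¹), mul_mem (mul_mem ?_ ?_) ?_,
      κ₁ * κ, mul_mem hκ₁ hκ, ?_⟩
    · exact EE_mono (PP_mono (by omega)) (conj_PP hx' hw)
    · exact EE_mono (PP_mono (by omega)) hw'
    · exact EE_mono (PP_mono (by omega)) (conj_K hyx he)
    · calc x' * s * y = x' * (s * y) := by group
        _ = (x' * w * x'⁻¹) * (x' * y) * s * κ := by rw [h1]; group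
        _ = (x' * w * x'⁻¹) * w' * (y * x') * (κ' * s) * κ := by rw [h2]; group
        _ = _ := by rw [h3]; group

/-! ### paths -/

variable {s : ℕ → G} (hs : ∀ n, s n ∈ S j)

include hs

lemma push_path (i : ℕ) (hji : j + 1 ≤ i) (hi : i ≤ k) : ∀ n : ℕ, ∀ κ ∈ K i,
    ∃ w ∈ EE D (PV s (K (j + 1)) n), ∃ κ' ∈ K i, κ * hh s n = w * hh s n * κ' := by
  intro n
  induction n with
  | zero => intro κ hκ; exact ⟨1, one_mem _, κ, hκ, by simp [hh]⟩
  | succ n ih =>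
    intro κ hκ
    obtain ⟨w, hw, κ₁, hκ₁, h1⟩ := ih κ hκ
    obtain ⟨e, he, κ₂, hκ₂, h2⟩ := h.push' (hs n) hji hi hκ₁
    refine ⟨w * (hh s n * e * (hh s n)⁻¹), mul_mem (EE_mono (PV_mono (by omega)) hw) ?_,
      κ₂, hκ₂, ?_⟩
    · refine EE_conj ?_ he
      intro κ hκ
      exact ⟨n, by omega, κ, hκ, rfl⟩
    · calc κ * (hh s n * s n) = (κ * hh s n) * s n := by group
        _ = w * hh s n * (κ₁ * s n) := by rw [h1]; group
        _ = w * (hh s n * e * (hh s n)⁻¹) * (hh s n * s n) * κ₂ := by rw [h2]; group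

lemma norm_V {n : ℕ} {κ : G} (hκ : κ ∈ K (j + 1)) {x : G}
    (hx : x ∈ EE D (PV s (K (j + 1)) n)) :
    κ * x * κ⁻¹ ∈ EE D (PV s (K (j + 1)) n) := by
  refine conj_mem_of ?_ hx
  rintro _ ⟨a, ha, κ₁, hκ₁, rfl⟩ d hd
  obtain ⟨w, hw, κ₂, hκ₂, h1⟩ := push_path h hj hs (j + 1) le_rfl (by omega) a κ hκ
  have e : (κ * (hh s a * κ₁)) * d * (κ * (hh s a * κ₁))⁻¹ =
      w * ((hh s a * (κ₂ * κ₁)) * d * (hh s a * (κ₂ * κ₁))⁻¹) * w⁻¹ := by
    have : κ * (hh s a * κ₁) = w * (hh s a * (κ₂ * κ₁)) := by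
      calc κ * (hh s a * κ₁) = (κ * hh s a) * κ₁ := by group
        _ = _ := by rw [h1]; group
    rw [this]; group
  rw [e]
  have hw' := EE_mono (D := D) (PV_mono (le_of_lt ha)) hw
  exact mul_mem (mul_mem hw' (mem_EE ⟨a, ha, _, mul_mem hκ₂ hκ₁, rfl⟩ hd)) (inv_mem hw')

/-- letters of deeper levels pass along a path -/
lemma pushS_path {i : ℕ} (hji : j + 1 ≤ i) (hi : i < k) {t : G} (ht : t ∈ S i) : ∀ n : ℕ,
    ∃ w ∈ EE D (PV s (K (j + 1)) n), ∃ κ ∈ K (i + 1), t * hh s n = w * hh s n * κ * t := by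
  intro n
  induction n with
  | zero => exact ⟨1, one_mem _, 1, one_mem _, by simp [hh]⟩
  | succ n ih =>
    obtain ⟨w, hw, κ, hκ, h1⟩ := ih
    obtain ⟨e, he, κ₁, hκ₁, h2⟩ := h.pushS (hs n) (by omega) hi ht
    obtain ⟨e', he', κ₂, hκ₂, h3⟩ := h.push' (hs n) (by omega : j + 1 ≤ i + 1) (by omega) hκ
    have hκ' : κ ∈ K (j + 1) := h.K_le (by omega) (by omega) hκ
    refine ⟨w * (hh s n * ((κ * e * κ⁻¹) * e') * (hh s n)⁻¹),
      mul_mem (EE_mono (PV_mono (by omega)) hw) ?_, κ₂ * κ₁, mul_mem hκ₂ hκ₁, ?_⟩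
    · refine EE_conj (P := (K (j + 1) : Set G)) ?_ (mul_mem (EE_conj (fun p hp =>
        mul_mem hκ' hp) he) he')
      intro κ hκ
      exact ⟨n, by omega, κ, hκ, rfl⟩
    · calc t * (hh s n * s n) = (t * hh s n) * s n := by group
        _ = w * hh s n * κ * (t * s n) := by rw [h1]; group
        _ = w * hh s n * (κ * e * κ⁻¹) * (κ * s n) * κ₁ * t := by rw [h2]; group
        _ = w * (hh s n * ((κ * e * κ⁻¹) * e') * (hh s n)⁻¹) * (hh s n * s n) *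
            (κ₂ * κ₁) * t := by rw [h3]; group

end

end Pool.Agent.K9h38.GG
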