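import Pool.Agent.K9h38.GG.Sys

/-!
# Left-normed commutators of generators
-/

set_option autoImplicit false

namespace Pool.Agent.K9h38.GG

open Pool.Agent.N918.G3 (inv_mem_pow)
open scoped Pointwise commutatorElement

universe u

variable {G : Type u} [Group G]

/-- left-normed commutators of weight `n + 1` of elements of `T`, and their inverses at each step -/
def SS (T : Set G) : ℕ → Set G
  | 0 => T
  | n + 1 => {x | ∃ s ∈ SS T n, ∃ t ∈ T, x = s * t * s⁻¹ * t⁻¹ ∨ x = (s * t * s⁻¹ * t⁻¹)⁻¹}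

/-- bound for the lengths of the commutators -/
def ell : ℕ → ℕ
  | 0 => 1
  | n + 1 => 2 * ell n + 2

lemma ell_eq (n : ℕ) : ell n + 2 = 3 * 2 ^ n := by
  induction n with
  | zero => rfl
  | succ n ih =>
    show 2 * ell n + 2 + 2 = 3 * 2 ^ (n + 1)
    rw [pow_succ]; omega

lemma ell_mono {m n : ℕ} (h : m ≤ n) : ell m ≤ ell n := by
  have h1 := ell_eq m
  have h2 := ell_eq n
  have h3 : 2 ^ m ≤ 2 ^ n := Nat.pow_le_pow_right (by norm_num) h
  omega

lemma sum_ell (k : ℕ) : 4 * ∑ i ∈ Finset.Ico 0 k, ell i + 12 ≤ 12 * 2 ^ k := by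
  induction k with
  | zero => simp
  | succ k ih =>
    have h1 := ell_eq k
    rw [Finset.sum_Ico_succ_top (by omega), pow_succ]
    omega

section

variable {T : Set G} (hT : T⁻¹ = T) (h1T : (1 : G) ∈ T)

include hT in
lemma SS_inv : ∀ n, (SS T n)⁻¹ = SS T n := by
  intro n
  cases n with
  | zero => exact hT
  | succ n =>
    ext x
    rw [Set.mem_inv]
    constructor
    · rintro ⟨s, hs, t, ht, h | h⟩
      · exact ⟨s, hs, t, ht, Or.inr (by rw [← h, inv_inv])⟩
      · exact ⟨s, hs, t, ht, Or.inl (inv_injective h)⟩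
    · rintro ⟨s, hs, t, ht, h | h⟩
      · exact ⟨s, hs, t, ht, Or.inr (by rw [h])⟩
      · exact ⟨s, hs, t, ht, Or.inl (by rw [h, inv_inv])⟩

include h1T in
lemma SS_one : ∀ n, (1 : G) ∈ SS T n := by
  intro n
  induction n with
  | zero => exact h1T
  | succ n ih => exact ⟨1, ih, 1, h1T, Or.inl (by group)⟩

include hT in
lemma SS_sub : ∀ n, SS T n ⊆ T ^ ell n := by
  intro n
  induction n with
  | zero => intro x hx; show x ∈ T ^ 1; rw [pow_one]; exact hx
  | succ n ih =>
    have key : ∀ s ∈ SS T n, ∀ t ∈ T, s * t * s⁻¹ * t⁻¹ ∈ T ^ ell (n + 1) := by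
      intro s hs t ht
      have e : ell (n + 1) = ell n + 1 + ell n + 1 := by
        show 2 * ell n + 2 = _; ring
      have ht1 : t ∈ T ^ 1 := by rw [pow_one]; exact ht
      rw [e, pow_add, pow_add, pow_add]
      exact Set.mul_mem_mul (Set.mul_mem_mul (Set.mul_mem_mul (ih hs) ht1)
        (inv_mem_pow hT (ih hs))) (inv_mem_pow hT ht1)
    rintro x ⟨s, hs, t, ht, rfl | rfl⟩
    · exact key s hs t ht
    · exact inv_mem_pow hT (key s hs t ht)

/-- commutators of weights from `j + 1` to `k` -/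
def KK (T : Set G) (k j : ℕ) : Subgroup G :=
  Subgroup.closure {x | ∃ m, j ≤ m ∧ m < k ∧ x ∈ SS T m}

/-- short conjugates of the commutators of weight `k + 1` -/
def DD (T : Set G) (k J : ℕ) : Set G := {x | ∃ g ∈ T ^ J, ∃ s ∈ SS T k, x = g * s * g⁻¹}

/-- auxiliary subgroups -/
def NN (T : Set G) (k i a : ℕ) : Subgroup G :=
  Subgroup.closure ({x | ∃ m, i ≤ m ∧ m < k ∧ x ∈ SS T m} ∪ DD T k a)

lemma KK_le {T : Set G} {k j i : ℕ} (h : j ≤ i) : KK T k i ≤ KK T k j := by
  unfold KK
  refine Subgroup.closure_mono ?_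
  rintro x ⟨m, hm, hmk, hx⟩
  exact ⟨m, by omega, hmk, hx⟩

include h1T in
lemma DD_mono {k a b : ℕ} (h : a ≤ b) : DD T k a ⊆ DD T k b := by
  rintro _ ⟨g, hg, s, hs, rfl⟩
  exact ⟨g, Set.pow_subset_pow_right h1T h hg, s, hs, rfl⟩

include h1T in
lemma SS_sub_DD (k a : ℕ) : SS T k ⊆ DD T k a := by
  intro x hx
  refine ⟨1, ?_, x, hx, by group⟩
  simpa using Set.pow_mem_pow (n := a) h1T

include h1T in
lemma NN_mono {k i a b : ℕ} (h : a ≤ b) : NN T k i a ≤ NN T k i b :=
  Subgroup.closure_mono (Set.union_subset_union_right _ (DD_mono h1T h))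

include h1T in
lemma SS_NN {k i m a : ℕ} (hi : i ≤ m) (hm : m ≤ k) {x : G} (hx : x ∈ SS T m) :
    x ∈ NN T k i a := by
  rcases Nat.lt_or_eq_of_le hm with h | rfl
  · exact Subgroup.subset_closure (Or.inl ⟨m, hi, h, hx⟩)
  · exact Subgroup.subset_closure (Or.inr (SS_sub_DD h1T m a hx))

include h1T in
/-- conjugation by a generator -/
lemma conj_NN {k i a : ℕ} {t : G} (ht : t ∈ T) {x : G} (hx : x ∈ NN T k i a) :
    t * x * t⁻¹ ∈ NN T k i (a + 1) := by
  have hle : NN T k i a ≤ (NN T k i (a + 1)).comap (MulAut.conj t).toMonoidHom := by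
    unfold NN
    rw [Subgroup.closure_le]
    rintro x (⟨m, hm, hmk, hx⟩ | ⟨g, hg, s, hs, rfl⟩)
    · show t * x * t⁻¹ ∈ NN T k i (a + 1)
      have e : t * x * t⁻¹ = (x * t * x⁻¹ * t⁻¹)⁻¹ * x := by group
      rw [e]
      exact mul_mem (SS_NN h1T (by omega : i ≤ m + 1) (by omega) ⟨x, hx, t, ht, Or.inr rfl⟩)
        (SS_NN h1T hm hmk.le hx)
    · show t * (g * s * g⁻¹) * t⁻¹ ∈ NN T k i (a + 1)
      refine Subgroup.subset_closure (Or.inr ⟨t * g, ?_, s, hs, by group⟩)
      rw [pow_succ']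
      exact Set.mul_mem_mul ht hg
  exact hle hx

include h1T in
/-- commutators of a commutator of generators with a word -/
lemma com_NN {k i : ℕ} (hi : i < k) {x : G} (hx : x ∈ SS T i) : ∀ b : ℕ, ∀ g ∈ T ^ b,
    x * g * x⁻¹ * g⁻¹ ∈ NN T k (i + 1) b := by
  intro b
  induction b with
  | zero =>
    intro g hg
    rw [pow_zero, Set.mem_one] at hg
    have : x * g * x⁻¹ * g⁻¹ = 1 := by rw [hg]; group
    rw [this]; exact one_mem _
  | succ b ih =>
    intro g hg
    rw [pow_succ'] at hg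
    obtain ⟨t, ht, g', hg', rfl⟩ := Set.mem_mul.1 hg
    have e : x * (t * g') * x⁻¹ * (t * g')⁻¹ =
        (x * t * x⁻¹ * t⁻¹) * (t * (x * g' * x⁻¹ * g'⁻¹) * t⁻¹) := by group
    rw [e]
    exact mul_mem (SS_NN h1T le_rfl (by omega) ⟨x, hx, t, ht, Or.inl rfl⟩)
      (conj_NN h1T ht (ih g' hg'))

/-- decomposition of the auxiliary subgroups -/
lemma NN_dec {k i a : ℕ} {x : G} (hx : x ∈ NN T k i a) :
    ∃ e ∈ EE (DD T k a) (KK T k i : Set G), ∃ κ ∈ KK T k i, x = e * κ := by
  unfold NN at hx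
  have hd : ∀ κ ∈ KK T k i, ∀ d ∈ DD T k a, κ * d * κ⁻¹ ∈ EE (DD T k a) (KK T k i : Set G) :=
    fun κ hκ d hd => mem_EE hκ hd
  induction hx using Subgroup.closure_induction_right with
  | one => exact ⟨1, one_mem _, 1, one_mem _, by group⟩
  | mul_right x hx y hy ih =>
    obtain ⟨e, he, κ, hκ, rfl⟩ := ih
    rcases hy with hy | hy
    · exact ⟨e, he, κ * y, mul_mem hκ (Subgroup.subset_closure hy), by group⟩
    · exact ⟨e * (κ * y * κ⁻¹), mul_mem he (hd κ hκ y hy), κ, hκ, by group⟩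
  | mul_inv_cancel x hx y hy ih =>
    obtain ⟨e, he, κ, hκ, rfl⟩ := ih
    rcases hy with hy | hy
    · exact ⟨e, he, κ * y⁻¹, mul_mem hκ (inv_mem (Subgroup.subset_closure hy)), by group⟩
    · exact ⟨e * (κ * y * κ⁻¹)⁻¹, mul_mem he (inv_mem (hd κ hκ y hy)), κ, hκ, by group⟩

include hT h1T in
lemma lev (k : ℕ) : Lev (DD T k (ell (k - 1))) (SS T) (KK T k) k := by
  refine ⟨?_, ?_, fun j _ => SS_inv hT j, fun j _ => SS_one h1T j, ?_⟩
  · unfold KK
    rw [Subgroup.closure_eq_bot_iff]
    rintro x ⟨m, hm, hmk, _⟩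
    omega
  · intro j hj
    apply le_antisymm
    · unfold KK
      rw [Subgroup.closure_le]
      rintro x ⟨m, hm, hmk, hx⟩
      rcases Nat.lt_or_eq_of_le hm with h | rfl
      · exact Subgroup.subset_closure (Or.inr (Subgroup.subset_closure ⟨m, h, hmk, hx⟩))
      · exact Subgroup.subset_closure (Or.inl hx)
    · rw [Subgroup.closure_le]
      rintro x (hx | hx)
      · exact Subgroup.subset_closure ⟨j, le_rfl, hj, hx⟩
      · exact KK_le (Nat.le_succ j) hx
  · intro j i hji hik s hs t ht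
    have hsT : s ∈ T ^ ell (k - 1) :=
      Set.pow_subset_pow_right h1T (ell_mono (by omega)) (SS_sub hT j hs)
    obtain ⟨e, he, κ, hκ, h1⟩ := NN_dec (com_NN h1T hik ht _ s hsT)
    refine ⟨e, he, κ, hκ, ?_⟩
    rw [← h1]; group

end

/-- the lower central series is generated by the conjugates of the commutators of generators -/
lemma lcs_le {T : Set G} (hgen : Subgroup.closure T = ⊤) : ∀ k : ℕ,
    (⊤ : Subgroup G).lowerCentralSeries k ≤ Subgroup.normalClosure (SS T k) := by
  intro k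
  induction k with
  | zero =>
    rw [Subgroup.lowerCentralSeries_zero, ← hgen]
    exact Subgroup.closure_le_normalClosure
  | succ k ih =>
    rw [Subgroup.lowerCentralSeries_succ, Subgroup.commutator_le]
    intro a ha g _
    set B := Subgroup.normalClosure (SS T (k + 1)) with hB
    -- the elements which commute with everything modulo `B`
    let C : Subgroup G := (Subgroup.center (G ⧸ B)).comap (QuotientGroup.mk' B)
    have hCn : C.Normal := Subgroup.Normal.comap inferInstance _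
    have hSC : SS T k ⊆ C := by
      intro s hs
      show (QuotientGroup.mk' B s) ∈ Subgroup.center (G ⧸ B)
      have hsT : ∀ t ∈ T, QuotientGroup.mk' B t * QuotientGroup.mk' B s =
          QuotientGroup.mk' B s * QuotientGroup.mk' B t := by
        intro t ht
        have h1 : s * t * s⁻¹ * t⁻¹ ∈ B :=
          Subgroup.subset_normalClosure ⟨s, hs, t, ht, Or.inl rfl⟩
        have h2 : QuotientGroup.mk' B (s * t * s⁻¹ * t⁻¹) = 1 := (QuotientGroup.eq_one_iff _).2 h1
        rw [map_mul, map_mul, map_mul, map_inv, map_inv, mul_inv_eq_one,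
          mul_inv_eq_iff_eq_mul] at h2
        exact h2.symm
      have hall : ∀ x : G, QuotientGroup.mk' B x * QuotientGroup.mk' B s =
          QuotientGroup.mk' B s * QuotientGroup.mk' B x := by
        intro x
        have hx : x ∈ Subgroup.closure T := by rw [hgen]; trivial
        induction hx using Subgroup.closure_induction with
        | mem x hx => exact hsT x hx
        | one => rw [map_one, one_mul, mul_one]
        | mul x y _ _ hx hy => rw [map_mul, mul_assoc, hy, ← mul_assoc, hx, mul_assoc]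
        | inv x _ hx =>
          rw [map_inv, inv_mul_eq_iff_eq_mul, ← mul_assoc, hx, mul_inv_cancel_right]
      rw [Subgroup.mem_center_iff]
      intro q
      obtain ⟨x, rfl⟩ := QuotientGroup.mk'_surjective B q
      exact hall x
    have haC : a ∈ C := (Subgroup.normalClosure_le_normal hSC) (ih ha)
    have h3 : (QuotientGroup.mk' B a) ∈ Subgroup.center (G ⧸ B) := haC
    rw [Subgroup.mem_center_iff] at h3
    have h4 : QuotientGroup.mk' B ⁅a, g⁆ = 1 := by
      rw [map_commutatorElement, commutatorElement_eq_one_iff_mul_comm]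
      exact (h3 _).symm
    exact (QuotientGroup.eq_one_iff _).1 h4

lemma SS_sub_lcs {T : Set G} : ∀ k : ℕ, ∀ x ∈ SS T k,
    x ∈ (⊤ : Subgroup G).lowerCentralSeries k := by
  intro k
  induction k with
  | zero => intro x _; rw [Subgroup.lowerCentralSeries_zero]; trivial
  | succ k ih =>
    have key : ∀ s ∈ SS T k, ∀ t : G, s * t * s⁻¹ * t⁻¹ ∈
        (⊤ : Subgroup G).lowerCentralSeries (k + 1) := by
      intro s hs t
      rw [Subgroup.lowerCentralSeries_succ]
      exact Subgroup.commutator_mem_commutator (ih s hs) (Subgroup.mem_top t)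
    rintro x ⟨s, hs, t, _, rfl | rfl⟩
    · exact key s hs t
    · exact inv_mem (key s hs t)

end Pool.Agent.K9h38.GG
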