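import Pool.Agent.K9h38.GG.Com
import Pool.Agent.N600.G3.Core

set_option autoImplicit false

namespace Pool.Agent.K9h38.GG

open Pool.Agent.N600.G3 (Crossed AA S_CNT AA_map f_one finite_pow prod_mem_pow)
open Pool.Agent.N918.G3 (inv_mem_pow zeroSub crossed_one)
open Pool.Agent
open scoped Pointwise commutatorElement
open Subgroup

universe u

variable {G : Type u} [Group G]

/-- conjugation on a normal subgroup -/
def cj (M : Subgroup G) [M.Normal] (g : G) : M →* M := (MulAut.conjNormal g).toMonoidHom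

section cj

variable {M : Subgroup G} [M.Normal]

lemma cj_coe (g : G) (m : M) : ((cj M g m : M) : G) = g * m * g⁻¹ := rfl

lemma cj_cj (g h : G) (m : M) : cj M g (cj M h m) = cj M (g * h) m := by
  apply Subtype.ext
  rw [cj_coe, cj_coe, cj_coe]
  group

lemma cj_one (m : M) : cj M 1 m = m := by
  apply Subtype.ext
  rw [cj_coe]
  group

lemma cj_comm_mem (g : G) {x : M} (hx : x ∈ commutator M) : cj M g x ∈ commutator M := by
  have h : (commutator M).map (cj M g) ≤ commutator M := by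
    rw [_root_.commutator_def, map_commutator]
    exact commutator_mono le_top le_top
  exact h ⟨x, hx, rfl⟩

end cj

theorem cnt : S_CNT.{u} :=
  N558.G3.t_cnt (N488.G3.t_entf N787.G3.t_ent2 (N99.G3.t_ent3 N711.G3.t_ent1))
    N405.G3.t_fib N713.G3.t_sec N693.G3.t_prd N693.G3.t_tri N499.G3.t_eps

lemma cp_ofFn (L : List (G × G × G)) (f : G × G × G → G) (e : Fin L.length → G) :
    cp (L.map f) (List.ofFn e) = (List.ofFn fun j => f (L.get j) * e j * (f (L.get j))⁻¹).prod := by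
  unfold cp
  congr 1
  apply List.ext_getElem
  · simp
  · intro i h1 h2
    simp

/-- growth from a crossed homomorphism -/
theorem tha (T : Set G) (hfin : T.Finite) (h1T : 1 ∈ T) (hT : T⁻¹ = T)
    (hgen : closure T = ⊤) (k : ℕ) (hk : 0 < k) (M : Subgroup G) [M.Normal]
    (hM1 : M ≤ normalClosure (SS T k)) (hM2 : ∀ x ∈ SS T k, x ∈ M)
    (F : Type u) [Field F] (Γ₀ : Type u) [LinearOrderedCommGroupWithZero Γ₀]
    (v : Valuation F Γ₀) (χ : M →* Fˣ) (b : M → F) (hb : Crossed χ b)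
    (c : M) (hc : (c : G) ∈ SS T k) (hbc : b c = 0) (hvc : v (χ c : F) ≠ 1)
    (hne : ∃ m, b m ≠ 0) :
    ∃ n > 0, ∀ R : ℕ, 2 ^ (n * R) ≤ (Nat.card ↥(T ^ (54 * 2 ^ k * n * R))) ^ 4 := by
  classical
  set J := ell (k - 1) with hJ
  set D := DD T k J with hD
  let Z : Subgroup G := (zeroSub hb).map M.subtype
  have memZ : ∀ x : M, (x : G) ∈ Z ↔ b x = 0 := by
    intro x
    constructor
    · rintro ⟨y, hy, hyx⟩
      have : y = x := Subtype.ext hyx
      rw [← this]; exact hy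
    · intro hx
      exact ⟨x, hx, rfl⟩
  have hZM : Z ≤ M := by
    rintro _ ⟨y, _, rfl⟩; exact y.2
  have hlev := lev hT h1T k
  have hDM : ∀ x ∈ D, x ∈ M := by
    rintro _ ⟨g, _, s, hs, rfl⟩
    exact Normal.conj_mem inferInstance _ (hM2 s hs) g
  have hDT : ∀ x ∈ D, x ∈ T ^ (ell k + 2 * J) := by
    rintro _ ⟨g, hg, s, hs, rfl⟩
    have e : ell k + 2 * J = J + ell k + J := by ring
    rw [e, pow_add, pow_add]
    exact Set.mul_mem_mul (Set.mul_mem_mul hg (SS_sub hT k hs)) (inv_mem_pow hT hg)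
  -- the initial state
  have hbad : ∃ κ ∈ KK T k 0, ∃ d ∈ D, ((1 : G) * κ) * d * ((1 : G) * κ)⁻¹ ∉ Z := by
    by_contra hcon
    push Not at hcon
    have hK : KK T k 0 = ⊤ := by
      rw [eq_top_iff, ← hgen]
      refine (closure_le _).2 ?_
      intro t ht
      exact subset_closure ⟨0, le_rfl, hk, ht⟩
    have hle : normalClosure (SS T k) ≤ Z := by
      rw [normalClosure, closure_le]
      intro x hx
      rw [Group.mem_conjugatesOfSet_iff] at hx
      obtain ⟨s, hs, hsx⟩ := hx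
      obtain ⟨g, hg⟩ := isConj_iff.1 hsx
      have := hcon g (by rw [hK]; trivial) s (SS_sub_DD h1T k J hs)
      rw [one_mul, hg] at this
      exact this
    obtain ⟨m, hm⟩ := hne
    exact hm ((memZ m).1 (hle (hM1 m.2)))
  have hst : St D (SS T) (KK T k) k Z 0 1 ⊥ := by
    refine ⟨bot_le, ?_, ?_, Or.inl rfl⟩
    · intro κ _ m hm
      rw [mem_bot] at hm ⊢
      rw [hm]; group
    · intro i _ _ s _
      exact ⟨1, one_mem _, 1, one_mem _, 1, one_mem _, by group⟩
  have hcD : (c : G) ∈ D := SS_sub_DD h1T k J hc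
  obtain ⟨L, hL⟩ := exists_sys hlev hT h1T ell (fun j _ => SS_sub hT j)
    (ℓ := ell k + 2 * J) hcD ((memZ c).2 hbc) k 0 (zero_add k) 1 ⊥ hst hbad
  set N := (ell k + 2 * J + 4 * ∑ i ∈ Finset.Ico 0 k, ell i) * L.length with hN
  have hN54 : 3 * N ≤ 54 * 2 ^ k * L.length := by
    have h1 := ell_eq k
    have h2 := ell_eq (k - 1)
    have h3 := sum_ell k
    have h4 : 2 ^ k = 2 * 2 ^ (k - 1) := by
      conv_lhs => rw [show k = (k - 1) + 1 by omega, pow_succ]
      ring
    have h5 : 3 * (ell k + 2 * J + 4 * ∑ i ∈ Finset.Ico 0 k, ell i) ≤ 54 * 2 ^ k := by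
      rw [hJ]; omega
    calc 3 * N = 3 * (ell k + 2 * J + 4 * ∑ i ∈ Finset.Ico 0 k, ell i) * L.length := by
          rw [hN]; ring
      _ ≤ _ := Nat.mul_le_mul_right _ h5
  have hlpos : 0 < L.length := List.length_pos_of_ne_nil hL.ne
  set n := L.length with hn
  let p : Fin n → G × G × G := fun j => L.get j
  have hp : ∀ j, p j ∈ L := fun j => List.get_mem L j
  let d₀ : Fin n → M := fun j => ⟨(p j).2.2, hDM _ (hL.memD _ (hp j))⟩
  let χ' : Fin n → M →* Fˣ := fun i => χ.comp (cj M ((p i).1)⁻¹)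
  let b' : Fin n → M → F := fun i m => b (cj M ((p i).1)⁻¹ m)
  let c' : Fin n → M := fun j => cj M (p j).1 c
  let d' : Fin n → M := fun j => cj M (p j).2.1 (d₀ j)
  have hb' : ∀ i, Crossed (χ' i) (b' i) := by
    intro i m m'
    show b (cj M ((p i).1)⁻¹ (m * m')) = b (cj M ((p i).1)⁻¹ m) +
      (χ (cj M ((p i).1)⁻¹ m) : F) * b (cj M ((p i).1)⁻¹ m')
    rw [map_mul, hb]
  have e1 : ∀ i j, b' i (c' j) = 0 := by
    intro i j
    show b (cj M ((p i).1)⁻¹ (cj M (p j).1 c)) = 0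
    rw [cj_cj, ← memZ, cj_coe]
    exact hL.cc rfl _ (hp i) _ (hp j)
  have e2 : ∀ i j, i < j → b' i (d' j) = 0 := by
    intro i j hij
    show b (cj M ((p i).1)⁻¹ (cj M (p j).2.1 (d₀ j))) = 0
    rw [cj_cj, ← memZ, cj_coe]
    have h1 := (List.pairwise_iff_get.1 hL.good) i j hij (d₀ j : G) (hL.memD _ (hp j))
    have e : ((p i).1)⁻¹ * (p j).2.1 = ((L.get i).1)⁻¹ * 1 * (L.get j).2.1 := by
      show ((L.get i).1)⁻¹ * (L.get j).2.1 = _
      group
    rw [e]
    exact h1
  have e3 : ∀ i, b' i (d' i) ≠ 0 := by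
    intro i
    show b (cj M ((p i).1)⁻¹ (cj M (p i).2.1 (d₀ i))) ≠ 0
    rw [cj_cj, Ne, ← memZ, cj_coe]
    have h1 := hL.bad _ (hp i)
    have e : ((p i).1)⁻¹ * (p i).2.1 = ((p i).1)⁻¹ * 1 * (p i).2.1 := by group
    rw [e]
    exact h1
  have e4 : ∀ i, v (χ' i (c' i) : F) ≠ 1 := by
    intro i
    show v (χ (cj M ((p i).1)⁻¹ (cj M (p i).1 c)) : F) ≠ 1
    rw [cj_cj, inv_mul_cancel, cj_one]
    exact hvc
  obtain ⟨ε, hε⟩ := cnt M F Γ₀ v n χ' b' hb' c' d' e1 e2 e3 e4
  have hone : ∀ m : ℕ, (1 : G) ∈ T ^ m := fun m => by simpa using Set.pow_mem_pow (n := m) h1T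
  have hL1 : ∀ x : Fin n → Bool, ((AA c' x : M) : G) ∈ T ^ N := by
    intro x
    have h1 := AA_map M.subtype c' x
    show M.subtype _ ∈ _
    rw [h1]
    have h2 : AA (fun j => M.subtype (c' j)) x = cp (L.map (fun p => p.1))
        (List.ofFn fun j : Fin L.length => if x j then (c : G) else 1) := by
      rw [cp_ofFn L (fun p => p.1)]
      unfold AA
      congr 2
      funext j
      by_cases hx : x j
      · simp only [hx, if_true]
        show ((cj M (p j).1 c : M) : G) = _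
        rw [cj_coe]
      · simp only [hx]
        simp
    rw [h2]
    refine hL.trA _ (by simp) ?_
    intro e he
    rw [List.mem_ofFn] at he
    obtain ⟨j, rfl⟩ := he
    split_ifs
    · exact hDT _ hcD
    · exact hone _
  have hL2 : ∀ x : Fin n → Bool, ((AA d' x : M) : G) ∈ T ^ N := by
    intro x
    have h1 := AA_map M.subtype d' x
    show M.subtype _ ∈ _
    rw [h1]
    have h2 : AA (fun j => M.subtype (d' j)) x = cp (L.map (fun p => p.2.1))
        (List.ofFn fun j : Fin L.length => if x j then (p j).2.2 else 1) := by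
      rw [cp_ofFn L (fun p => p.2.1)]
      unfold AA
      congr 2
      funext j
      by_cases hx : x j
      · simp only [hx, if_true]
        show ((cj M (p j).2.1 (d₀ j) : M) : G) = _
        rw [cj_coe]
      · simp only [hx]
        simp
    rw [h2]
    refine hL.trB _ (by simp) ?_
    intro e he
    rw [List.mem_ofFn] at he
    obtain ⟨j, rfl⟩ := he
    split_ifs
    · exact hDT _ (hL.memD _ (hp j))
    · exact hone _
  refine ⟨n, hlpos, fun R => (hε R).trans (Nat.pow_le_pow_left ?_ 4)⟩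
  have hmem : ∀ δ : Fin R → Fin n → Bool,
      ((((List.ofFn fun r => AA d' (δ r) * AA c' ε * (AA d' (δ r))⁻¹).prod :
        M)) : G) ∈ T ^ (54 * 2 ^ k * n * R) := by
    intro δ
    have h5 : ((((List.ofFn fun r => AA d' (δ r) * AA c' ε * (AA d' (δ r))⁻¹).prod :
        M)) : G) = (List.ofFn fun r => (((AA d' (δ r) * AA c' ε * (AA d' (δ r))⁻¹ :
          M)) : G)).prod := by
      have := map_list_prod M.subtype
        (List.ofFn fun r => AA d' (δ r) * AA c' ε * (AA d' (δ r))⁻¹)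
      rw [List.map_ofFn] at this
      exact this
    rw [h5]
    apply prod_mem_pow
    intro r
    refine Set.pow_subset_pow_right h1T (m := N + N + N) (by omega) ?_
    rw [pow_add, pow_add]
    exact Set.mul_mem_mul (Set.mul_mem_mul (hL2 _) (hL1 _)) (inv_mem_pow hT (hL2 _))
  have hfinT : Finite ↥(T ^ (54 * 2 ^ k * n * R)) := (finite_pow hfin _).to_subtype
  refine Nat.card_le_card_of_injective
    (fun x : Set.range _ => (⟨((x : M) : G), ?_⟩ : ↥(T ^ (54 * 2 ^ k * n * R)))) ?_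
  · obtain ⟨_, δ, rfl⟩ := x
    exact hmem δ
  · intro x y hxy
    have h9 := congrArg (fun z : ↥(T ^ (54 * 2 ^ k * n * R)) => (z : G)) hxy
    exact Subtype.ext (Subtype.ext h9)

/-- growth when the derived subgroup of `M` is not finitely generated -/
theorem red (T : Set G) (hfin : T.Finite) (h1T : 1 ∈ T) (hT : T⁻¹ = T)
    (hgen : closure T = ⊤) (k : ℕ) (hk : 0 < k) (M : Subgroup G) [M.Normal]
    (hM1 : M ≤ normalClosure (SS T k)) (hM2 : ∀ x ∈ SS T k, x ∈ M) (hFG : M.FG)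
    (habel : ∀ x ∈ commutator M, ∀ y ∈ commutator M, x * y = y * x)
    (hnfg : ¬ (commutator M).FG) :
    ∃ n > 0, ∀ R : ℕ, 2 ^ (n * R) ≤ (Nat.card ↥(T ^ (54 * 2 ^ k * n * R))) ^ 4 := by
  have : Group.FG M := (Group.fg_iff_subgroup_fg _).2 hFG
  obtain ⟨F, iF, Γ₀, iΓ, v, χ, f, hf1, hf2, ⟨x0, hx0, hfx0⟩, m0, hm0⟩ :=
    N600.G3.alg M habel hnfg
  -- a short element acting as a hyperbolic element
  have hex : ∃ (g : G) (c : M), (c : G) ∈ SS T k ∧ v (χ (cj M g c) : F) ≠ 1 := by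
    by_contra hcon
    push Not at hcon
    let Q : Subgroup G :=
      { carrier := {x | ∃ hx : x ∈ M, ∀ g : G, v (χ (cj M g ⟨x, hx⟩) : F) = 1}
        mul_mem' := by
          rintro a b ⟨ha, ha'⟩ ⟨hb, hb'⟩
          refine ⟨mul_mem ha hb, fun g => ?_⟩
          have : (⟨a * b, mul_mem ha hb⟩ : M) = ⟨a, ha⟩ * ⟨b, hb⟩ := rfl
          rw [this, map_mul, map_mul, Units.val_mul, map_mul, ha' g, hb' g, one_mul]
        one_mem' := by
          refine ⟨one_mem _, fun g => ?_⟩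
          have : (⟨1, one_mem _⟩ : M) = 1 := rfl
          rw [this, map_one, map_one, Units.val_one, map_one]
        inv_mem' := by
          rintro a ⟨ha, ha'⟩
          refine ⟨inv_mem ha, fun g => ?_⟩
          have : (⟨a⁻¹, inv_mem ha⟩ : M) = (⟨a, ha⟩ : M)⁻¹ := rfl
          rw [this, map_inv, map_inv, Units.val_inv_eq_inv_val, map_inv₀, ha' g, inv_one] }
    have hQn : Q.Normal := by
      refine ⟨?_⟩
      rintro a ⟨ha, ha'⟩ h
      refine ⟨Normal.conj_mem inferInstance a ha h, fun g => ?_⟩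
      have e : (⟨h * a * h⁻¹, Normal.conj_mem inferInstance a ha h⟩ : M) =
          cj M h ⟨a, ha⟩ := rfl
      rw [e, cj_cj]
      exact ha' (g * h)
    have hle : M ≤ Q := by
      refine hM1.trans (normalClosure_le_normal ?_)
      intro x hx
      exact ⟨hM2 x hx, fun g => hcon g ⟨x, hM2 x hx⟩ hx⟩
    obtain ⟨hm, hm'⟩ := hle m0.2
    apply hm0
    have := hm' 1
    rw [cj_one] at this
    exact this
  obtain ⟨g, c, hc, hvc⟩ := hex
  let χ' : M →* Fˣ := χ.comp (cj M g)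
  let f' : M → F := fun x => f (cj M g x)
  have hf1' : ∀ x ∈ commutator M, ∀ y ∈ commutator M, f' (x * y) = f' x + f' y := by
    intro x hx y hy
    show f (cj M g (x * y)) = _
    rw [map_mul, hf1 _ (cj_comm_mem g hx) _ (cj_comm_mem g hy)]
  have hf2' : ∀ m, ∀ x ∈ commutator M, f' (m * x * m⁻¹) = (χ' m : F) * f' x := by
    intro m x hx
    show f (cj M g (m * x * m⁻¹)) = _
    rw [map_mul, map_mul, map_inv, hf2 _ _ (cj_comm_mem g hx)]
    rfl
  have hcm : ∀ m, c * m * c⁻¹ * m⁻¹ ∈ commutator M := fun m =>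
    commutator_mem_commutator (mem_top c) (mem_top m)
  have hcr : Crossed χ' (fun m => f' (c * m * c⁻¹ * m⁻¹)) := by
    intro m m'
    have e : c * (m * m') * c⁻¹ * (m * m')⁻¹ =
        (c * m * c⁻¹ * m⁻¹) * (m * (c * m' * c⁻¹ * m'⁻¹) * m⁻¹) := by group
    show f' (c * (m * m') * c⁻¹ * (m * m')⁻¹) = _
    rw [e, hf1' _ (hcm m) _ (Normal.conj_mem inferInstance _ (hcm m') m), hf2' _ _ (hcm m')]
  refine tha T hfin h1T hT hgen k hk M hM1 hM2 F Γ₀ v χ' _ hcr c hc ?_ hvc ?_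
  · show f' (c * c * c⁻¹ * c⁻¹) = 0
    have e : c * c * c⁻¹ * c⁻¹ = 1 := by group
    rw [e]
    show f (cj M g 1) = 0
    rw [map_one]
    exact f_one hf1
  · refine ⟨cj M g⁻¹ x0, ?_⟩
    have h1 : cj M g⁻¹ x0 ∈ commutator M := cj_comm_mem _ hx0
    have h2 : f' (cj M g⁻¹ x0) = f x0 := by
      show f (cj M g (cj M g⁻¹ x0)) = _
      rw [cj_cj, mul_inv_cancel, cj_one]
    show f' (c * cj M g⁻¹ x0 * c⁻¹ * (cj M g⁻¹ x0)⁻¹) ≠ 0
    rw [hf1' _ (Normal.conj_mem inferInstance _ h1 c) _ (inv_mem h1), hf2' _ _ h1]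
    have h3 : f' ((cj M g⁻¹ x0)⁻¹) = - f' (cj M g⁻¹ x0) := by
      have h4 := hf1' _ h1 _ (inv_mem h1)
      rw [mul_inv_cancel] at h4
      have h5 : f' 1 = 0 := by
        show f (cj M g 1) = 0
        rw [map_one]
        exact f_one hf1
      rw [h5] at h4
      exact (eq_neg_of_add_eq_zero_right h4.symm)
    rw [h3, h2]
    have h6 : (χ' c : F) * f x0 + -f x0 = ((χ' c : F) - 1) * f x0 := by ring
    rw [h6]
    refine mul_ne_zero (sub_ne_zero.2 ?_) hfx0
    intro h7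
    apply hvc
    show v (χ' c : F) = 1
    rw [h7, map_one]

end Pool.Agent.K9h38.GG
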