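import Pool.Agent.K9h38.GG.Growth

set_option autoImplicit false

namespace Pool.Agent.K9h38.GG

open Pool.Agent
open Pool.Agent.N600.G3 (card_map_pow one_le_card card_pow_mul_le finite_pow NS_of_index
  inv_mem_pow)
open scoped Pointwise commutatorElement
open Subgroup Filter Topology
open Pool.Agent.H785R3.GrowthA (NoFree)
open Pool.Agent.Helper111.EN.NSc (NS NS_ext NS_of_nilpotent_fg NS_top_iff)

universe u

lemma lcs_map {G G' : Type u} [Group G] [Group G'] {f : G →* G'} (hf : Function.Surjective f)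
    (k : ℕ) : (⊤ : Subgroup G').lowerCentralSeries k =
      ((⊤ : Subgroup G).lowerCentralSeries k).map f := by
  rw [map_lowerCentralSeries, ← MonoidHom.range_eq_map, MonoidHom.range_eq_top.2 hf]

lemma nilp_quot {G : Type u} [Group G] (k : ℕ) (D : Subgroup G) [D.Normal]
    (h : (⊤ : Subgroup G).lowerCentralSeries k ≤ D) : Group.IsNilpotent (G ⧸ D) := by
  refine (Subgroup.nilpotent_iff_lowerCentralSeries (G := G ⧸ D)).2 ⟨k, ?_⟩
  have hπ : Function.Surjective (QuotientGroup.mk' D) := QuotientGroup.mk'_surjective D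
  show (⊤ : Subgroup (G ⧸ D)).lowerCentralSeries k = ⊥
  rw [lcs_map hπ k, Subgroup.map_eq_bot_iff, QuotientGroup.ker_mk']
  exact h

/-- the dichotomy when `γ_{k+1}(G)` is metabelian -/
theorem core {G : Type u} [Group G] (T : Set G) (hfin : T.Finite) (h1T : 1 ∈ T)
    (hinv : T⁻¹ = T) (hgen : closure T = ⊤) (k : ℕ) (hk : 0 < k) (M : Subgroup G) [M.Normal]
    (hM : M = (⊤ : Subgroup G).lowerCentralSeries k)
    (habel : ∀ x ∈ commutator M, ∀ y ∈ commutator M, x * y = y * x) :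
    (∀ n : ℕ, 2 ^ n ≤ (Nat.card ↥(T ^ n)) ^ (216 * 2 ^ k)) ∨ NS (⊤ : Subgroup G) := by
  have hk1 : 3 ≤ 216 * 2 ^ k := by
    have : 1 ≤ 2 ^ k := Nat.one_le_two_pow
    omega
  have up : (∀ n : ℕ, 2 ^ n ≤ (Nat.card ↥(T ^ n)) ^ 3) →
      ∀ n : ℕ, 2 ^ n ≤ (Nat.card ↥(T ^ n)) ^ (216 * 2 ^ k) := fun h n =>
    (h n).trans (Nat.pow_le_pow_right (one_le_card hfin h1T n) hk1)
  by_cases hNF : NoFree T 3
  swap
  · left
    exact up fun n => Pool.Agent.TH555.FG.two_pow_of_pair hfin hNF n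
  have hMnil : Group.IsNilpotent (G ⧸ M) := nilp_quot k M hM.ge
  have hFG : M.FG := Pool.Agent.TH555.FG.fg_of_nilpotent_quotient hfin hgen hNF M hMnil
  by_cases hN : (commutator M).FG
  swap
  · left
    obtain ⟨m, hm, h⟩ := red T hfin h1T hinv hgen k hk M (by rw [hM]; exact lcs_le hgen k)
      (fun x hx => by rw [hM]; exact SS_sub_lcs k x hx) hFG habel hN
    intro n
    have h1 := h n
    have h2 : Nat.card ↥(T ^ (54 * 2 ^ k * m * n)) ≤ (Nat.card ↥(T ^ n)) ^ (54 * 2 ^ k * m) :=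
      card_pow_mul_le T n _
    have h3 : (2 ^ n) ^ m ≤ ((Nat.card ↥(T ^ n)) ^ (216 * 2 ^ k)) ^ m := by
      calc (2 ^ n) ^ m = 2 ^ (m * n) := by rw [← pow_mul, mul_comm]
        _ ≤ (Nat.card ↥(T ^ (54 * 2 ^ k * m * n))) ^ 4 := h1
        _ ≤ ((Nat.card ↥(T ^ n)) ^ (54 * 2 ^ k * m)) ^ 4 := Nat.pow_le_pow_left h2 4
        _ = _ := by rw [← pow_mul, ← pow_mul]; congr 1; ring
    exact (Nat.pow_le_pow_iff_left (by omega)).1 h3
  -- the quotient by the derived subgroup of `M`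
  let D : Subgroup G := ⁅M, M⁆
  have hD : (commutator M).map M.subtype = D := map_subtype_commutator M
  let π : G →* G ⧸ D := QuotientGroup.mk' D
  have hπ : Function.Surjective π := QuotientGroup.mk'_surjective D
  have hgen' : closure (π '' T) = ⊤ := by
    rw [← MonoidHom.map_closure, hgen, ← MonoidHom.range_eq_map]
    exact MonoidHom.range_eq_top.2 hπ
  by_cases hNF' : NoFree (π '' T) 3
  swap
  · left
    refine up fun n => ?_
    exact (Pool.Agent.TH555.FG.two_pow_of_pair (hfin.image π) hNF' n).trans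
      (Nat.pow_le_pow_left (card_map_pow π T hfin n) 3)
  right
  refine NS_ext π ⊤ ?_ ?_
  · intro R _
    have hn : ((⊤ : Subgroup (G ⧸ D)).lowerCentralSeries k) = M.map π :=
      (lcs_map hπ k).trans (congrArg (Subgroup.map π) hM.symm)
    have hab' : Group.IsNilpotent ((G ⧸ D) ⧸ (⊤ : Subgroup (G ⧸ D)).lowerCentralSeries k) :=
      nilp_quot k _ le_rfl
    refine Pool.Agent.TH555.FG.noeth_of_noFree (hfin.image π) hgen' hNF' _ hab' ?_ R
    intro P hP hPfg R' hR'
    refine Pool.Agent.TH555.FG.sub_fg hPfg ?_ hR'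
    intro a ha b hb
    have h1 := hP ha
    have h2 := hP hb
    rw [hn] at h1 h2
    obtain ⟨x, hx, rfl⟩ := h1
    obtain ⟨y, hy, rfl⟩ := h2
    have h3 : x * y * x⁻¹ * y⁻¹ ∈ D := commutator_mem_commutator hx hy
    have h4 : π (x * y * x⁻¹ * y⁻¹) = 1 := (QuotientGroup.eq_one_iff _).2 h3
    rw [map_mul, map_mul, map_mul, map_inv, map_inv, mul_inv_eq_one, mul_inv_eq_iff_eq_mul] at h4
    exact h4
  · rw [QuotientGroup.ker_mk', top_inf_eq]
    intro R hR
    have hDfg : D.FG := by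
      rw [← hD]; exact Pool.Agent.TH555.FG.fg_map M.subtype hN
    refine Pool.Agent.TH555.FG.sub_fg hDfg ?_ hR
    rw [← hD]
    rintro _ ⟨x, hx, rfl⟩ _ ⟨y, hy, rfl⟩
    rw [← map_mul, ← map_mul, habel x hx y hy]

/-- the general dichotomy -/
theorem main {G : Type u} [Group G] (T : Set G) (hfin : T.Finite) (h1T : 1 ∈ T)
    (hinv : T⁻¹ = T) (hgen : closure T = ⊤) (k : ℕ) (hk : 0 < k) (M : Subgroup G) [M.Normal]
    (hM : M = (⊤ : Subgroup G).lowerCentralSeries k) :
    (∀ n : ℕ, 2 ^ n ≤ (Nat.card ↥(T ^ n)) ^ (216 * 2 ^ k)) ∨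
      (NS (⊤ : Subgroup (G ⧸ ⁅⁅M, M⁆, ⁅M, M⁆⁆)) ∧
        (Group.IsNilpotent ↥⁅M, M⁆ → NS (⊤ : Subgroup G))) := by
  let D : Subgroup G := ⁅⁅M, M⁆, ⁅M, M⁆⁆
  let π : G →* G ⧸ D := QuotientGroup.mk' D
  have hπ : Function.Surjective π := QuotientGroup.mk'_surjective D
  have hgen' : closure (π '' T) = ⊤ := by
    rw [← MonoidHom.map_closure, hgen, ← MonoidHom.range_eq_map]
    exact MonoidHom.range_eq_top.2 hπ
  have hinv' : (π '' T)⁻¹ = π '' T := by
    rw [← Set.image_inv, hinv]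
  have h1' : (1 : G ⧸ D) ∈ π '' T := ⟨1, h1T, map_one π⟩
  let M' : Subgroup (G ⧸ D) := (⊤ : Subgroup (G ⧸ D)).lowerCentralSeries k
  have hM' : M' = M.map π := (lcs_map hπ k).trans (congrArg (Subgroup.map π) hM.symm)
  have hMn : M'.Normal := lowerCentralSeries_normal _ k
  have hbot : ⁅⁅M', M'⁆, ⁅M', M'⁆⁆ = (⊥ : Subgroup (G ⧸ D)) := by
    rw [hM', ← map_commutator, ← map_commutator, eq_bot_iff]
    rintro _ ⟨x, hx, rfl⟩
    rw [Subgroup.mem_bot]
    exact (QuotientGroup.eq_one_iff x).2 hx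
  have habel : ∀ x ∈ commutator M', ∀ y ∈ commutator M', x * y = y * x := by
    intro x hx y hy
    have hms := (map_subtype_commutator M').le
    have hx' : (x : G ⧸ D) ∈ ⁅M', M'⁆ := hms ⟨x, hx, rfl⟩
    have hy' : (y : G ⧸ D) ∈ ⁅M', M'⁆ := hms ⟨y, hy, rfl⟩
    have h1 : ⁅(x : G ⧸ D), (y : G ⧸ D)⁆ ∈ ⁅⁅M', M'⁆, ⁅M', M'⁆⁆ :=
      commutator_mem_commutator hx' hy'
    rw [hbot, Subgroup.mem_bot, commutatorElement_eq_one_iff_mul_comm] at h1
    exact Subtype.ext h1
  rcases core (π '' T) (hfin.image π) h1' hinv' hgen' k hk M' rfl habel with h | h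
  · left
    intro n
    exact (h n).trans (Nat.pow_le_pow_left (card_map_pow π T hfin n) _)
  · right
    refine ⟨h, fun hnil => ?_⟩
    -- the derived subgroup of `M` is finitely generated
    have h2 : (⁅M, M⁆.map π).FG := h _ le_top
    obtain ⟨F₀, hF₀, hF₀fin⟩ := (Subgroup.fg_iff _).1 h2
    have hlift : ∀ x : G ⧸ D, ∃ y : G, x ∈ F₀ → y ∈ ⁅M, M⁆ ∧ π y = x := by
      intro x
      by_cases hx : x ∈ F₀
      · have : x ∈ ⁅M, M⁆.map π := by rw [← hF₀]; exact Subgroup.subset_closure hx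
        obtain ⟨y, hy, rfl⟩ := this
        exact ⟨y, fun _ => ⟨hy, rfl⟩⟩
      · exact ⟨1, fun h => absurd h hx⟩
    choose f hf using hlift
    have hFsub : f '' F₀ ⊆ ((⁅M, M⁆ : Subgroup G) : Set G) := by
      rintro _ ⟨x, hx, rfl⟩; exact (hf x hx).1
    have hgen2 : ⁅M, M⁆ = closure (f '' F₀) ⊔ ⁅⁅M, M⁆, ⁅M, M⁆⁆ := by
      apply le_antisymm
      · intro z hz
        have h3 : π z ∈ (closure (f '' F₀)).map π := by
          have h4 : (closure (f '' F₀)).map π = closure F₀ := by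
            rw [MonoidHom.map_closure]
            congr 1
            rw [← Set.image_comp]
            ext x
            constructor
            · rintro ⟨y, hy, rfl⟩
              show π (f y) ∈ F₀
              rw [(hf y hy).2]; exact hy
            · intro hx
              exact ⟨x, hx, (hf x hx).2⟩
          rw [h4, hF₀]
          exact ⟨z, hz, rfl⟩
        obtain ⟨w, hw, hwz⟩ := h3
        have h5 : w⁻¹ * z ∈ D := by
          rw [← QuotientGroup.eq_one_iff]
          show π (w⁻¹ * z) = 1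
          rw [map_mul, map_inv, hwz, inv_mul_cancel]
        have : z = w * (w⁻¹ * z) := by group
        rw [this]
        exact mul_mem (mem_sup_left hw) (mem_sup_right h5)
      · refine sup_le ((closure_le _).2 hFsub) ?_
        exact commutator_le_left _ _
    have h6 := Pool.Agent.H785R3.GrowthA.nilp_gen hnil hFsub hgen2
    have h7 : (⁅M, M⁆ : Subgroup G).FG := (Subgroup.fg_iff _).2 ⟨_, h6, hF₀fin.image f⟩
    have h8 : NS (⁅M, M⁆ : Subgroup G) := NS_of_nilpotent_fg _ hnil h7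
    -- extension
    refine NS_ext (QuotientGroup.mk' ⁅M, M⁆) ⊤ ?_ ?_
    · let θ : G ⧸ D →* G ⧸ ⁅M, M⁆ :=
        QuotientGroup.map D ⁅M, M⁆ (MonoidHom.id G) (commutator_le_left _ _)
      have h9 := h.map θ
      intro R _
      refine h9 R ?_
      intro x _
      obtain ⟨x, rfl⟩ := QuotientGroup.mk_surjective x
      exact ⟨QuotientGroup.mk x, mem_top _, rfl⟩
    · rw [QuotientGroup.ker_mk', top_inf_eq]
      exact h8

lemma rho_ge {G : Type u} [Group G] (S : Set G) {C : ℕ} (hC : 0 < C)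
    (h : ∀ n, 2 ^ n ≤ Nat.card ↥(S ^ n) ^ C) : Real.log 2 / C ≤ H746UG.rho S := by
  refine ge_of_tendsto (H746UG.tendsto_rho S) ?_
  filter_upwards [eventually_gt_atTop 0] with n hn
  have h1 := h n
  have h2 : 0 < Nat.card ↥(S ^ n) := Nat.pos_of_ne_zero (fun h3 => by
    rw [h3, zero_pow hC.ne'] at h1
    simp at h1)
  have h3 : Real.log ((2 : ℝ) ^ n) ≤ Real.log ((Nat.card ↥(S ^ n) : ℝ) ^ C) := by
    apply Real.log_le_log (by positivity)
    exact_mod_cast h1
  rw [Real.log_pow, Real.log_pow] at h3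
  have hn' : (0 : ℝ) < n := by exact_mod_cast hn
  have hC' : (0 : ℝ) < C := by exact_mod_cast hC
  rw [div_le_div_iff₀ hC' hn']
  linarith

theorem final {G : Type u} [Group G] (S : Set G) (hfin : S.Finite) (hsym : S⁻¹ = S)
    (hgen : closure S = ⊤) (k : ℕ) (hk : 0 < k) (H : Subgroup G) (d : ℕ) (hH : H.index ≠ 0)
    (hd : H.index ≤ d) (M : Subgroup H) [M.Normal]
    (hM : M = (⊤ : Subgroup H).lowerCentralSeries k) :
    Real.log 2 / (216 * 2 ^ k * (2 * d - 1)) ≤ H746UG.rho S ∨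
      ((∀ K : Subgroup (H ⧸ ⁅⁅M, M⁆, ⁅M, M⁆⁆), K.FG) ∧
        (Group.IsNilpotent ↥⁅M, M⁆ → ∀ K : Subgroup G, K.FG)) := by
  rcases S.eq_empty_or_nonempty with hS | hne
  · right
    have htriv : ∀ x : G, x = 1 := by
      intro x
      have hx : x ∈ closure S := by rw [hgen]; exact mem_top x
      rw [hS, Subgroup.closure_empty, Subgroup.mem_bot] at hx
      exact hx
    have hs : Subsingleton G := ⟨fun a b => by rw [htriv a, htriv b]⟩
    have hsH : Subsingleton H := inferInstance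
    have hsQ : Subsingleton (H ⧸ ⁅⁅M, M⁆, ⁅M, M⁆⁆) := inferInstance
    refine ⟨fun K => ?_, fun _ K => ?_⟩
    · exact (Subgroup.fg_iff _).2 ⟨∅, Subsingleton.elim _ _, Set.finite_empty⟩
    · exact (Subgroup.fg_iff _).2 ⟨∅, Subsingleton.elim _ _, Set.finite_empty⟩
  have hd1 : 1 ≤ d := by omega
  set T := W963.GE.TT S H d with hT
  have hTfin : T.Finite := W963.GE.TT_finite S hfin H d
  have hTgen : closure T = ⊤ := W963.GE.TT_gen S hgen H hH hd
  have h1T : (1 : H) ∈ T := by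
    show ((1 : H) : G) ∈ (insert 1 S) ^ (2 * d - 1)
    have : (1 : G) ∈ insert 1 S := Set.mem_insert _ _
    simpa using Set.pow_mem_pow (n := 2 * d - 1) this
  have hinv1 : (insert 1 S)⁻¹ = insert 1 S := by
    rw [Set.inv_insert, inv_one, hsym]
  have hTinv : T⁻¹ = T := by
    ext x
    rw [Set.mem_inv]
    constructor
    · intro hx
      have := inv_mem_pow hinv1 (show ((x⁻¹ : H) : G) ∈ (insert 1 S) ^ (2 * d - 1) from hx)
      rw [← coe_inv, inv_inv] at this
      exact this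
    · intro hx
      exact inv_mem_pow hinv1 (show (x : G) ∈ (insert 1 S) ^ (2 * d - 1) from hx)
  rcases main T hTfin h1T hTinv hTgen k hk M hM with h | ⟨h1, h2⟩
  · left
    have hC : 0 < 216 * 2 ^ k := by positivity
    have h3 := rho_ge T hC h
    have h4 := W963.GE.rho_TT S hfin hne H hd1
    have he : ((2 * d - 1 : ℕ) : ℝ) = 2 * d - 1 := by
      rw [Nat.cast_sub (by omega)]; push_cast; ring
    rw [he] at h4
    push_cast at h3
    have hpos : (0 : ℝ) < 2 * d - 1 := by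
      have : (1 : ℝ) ≤ d := by exact_mod_cast hd1
      linarith
    have h5 := h3.trans h4
    rw [← div_div, div_le_iff₀ hpos, mul_comm (H746UG.rho S)]
    exact h5
  · right
    refine ⟨fun K => h1 K le_top, fun hnil K => NS_of_index H hH (h2 hnil) K⟩

end Pool.Agent.K9h38.GG
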