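import Pool.Agent.K9h38.GG.Tour

set_option autoImplicit false
set_option linter.unusedSectionVars false

namespace Pool.Agent.K9h38.GG

open Pool.Agent.N600.G3 (hh)
open Pool.Agent.N918.G3 (hh_seg hh_mem inv_mem_pow hh_period exists_letters)
open scoped Pointwise

universe u

variable {G : Type u} [Group G]

/-- translated positions -/
def GP (g : G) (S : Set G) (K' : Subgroup G) (n : ℕ) : Set G :=
  {x | ∃ p ∈ PP S K' n, x = g * p}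

lemma conj_GP {D S : Set G} {K' : Subgroup G} {n : ℕ} {g w : G} (hw : w ∈ EE D (PP S K' n)) :
    g * w * g⁻¹ ∈ EE D (GP g S K' n) :=
  EE_conj (P' := GP g S K' n) (fun p hp => ⟨p, hp, rfl⟩) hw

section step

variable {D : Set G} {S : ℕ → Set G} {K : ℕ → Subgroup G} {k : ℕ} {Z : Subgroup G} {j : ℕ}
  {g : G} {N : Subgroup G}
  (h : Lev D S K k) (hj : j < k) (st : St D S K k Z j g N)
  {n₀ : ℕ} (hn₀ : 0 < n₀)
  (hgood : ∀ m < n₀, ∀ y ∈ (S j) ^ m, ∀ κ ∈ K (j + 1), ∀ d ∈ D,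
    (g * (y * κ)) * d * (g * (y * κ))⁻¹ ∈ Z)

include h hj st hgood

lemma N'_le : N ⊔ EE D (GP g (S j) (K (j + 1)) n₀) ≤ Z := by
  refine sup_le st.le (EE_le ?_)
  rintro _ ⟨_, ⟨m, hm, y, hy, κ, hκ, rfl⟩, rfl⟩ d hd
  exact hgood m hm y hy κ hκ d hd

lemma N'_nrm {κ : G} (hκ : κ ∈ K (j + 1)) {m : G}
    (hm : m ∈ N ⊔ EE D (GP g (S j) (K (j + 1)) n₀)) :
    κ * m * κ⁻¹ ∈ N ⊔ EE D (GP g (S j) (K (j + 1)) n₀) := by
  set N' := N ⊔ EE D (GP g (S j) (K (j + 1)) n₀) with hN'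
  have hle : N' ≤ N'.comap (MulAut.conj κ).toMonoidHom := by
    rw [hN']
    refine sup_le ?_ ?_
    · intro x hx
      exact Subgroup.mem_sup_left (st.nrm κ (h.K_succ_le hj hκ) x hx)
    · refine EE_le ?_
      rintro _ ⟨_, ⟨a, ha, y, hy, κ₁, hκ₁, rfl⟩, rfl⟩ d hd
      rw [Subgroup.mem_comap]
      obtain ⟨m₁, hm₁, κ₂, hκ₂, h1⟩ := st.left' h (by omega : j ≤ j + 1) (by omega) hκ
      obtain ⟨w, hw, κ₃, hκ₃, h2⟩ := push_word h hj a κ₂ hκ₂ y hy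
      have e1 : κ * (g * (y * κ₁)) = m₁ * (g * w * g⁻¹) * (g * (y * (κ₃ * κ₁))) := by
        calc κ * (g * (y * κ₁)) = (κ * g) * y * κ₁ := by group
          _ = m₁ * g * (κ₂ * y) * κ₁ := by rw [h1]; group
          _ = _ := by rw [h2]; group
      have e2 : (MulAut.conj κ).toMonoidHom (g * (y * κ₁) * d * (g * (y * κ₁))⁻¹) =
          (m₁ * (g * w * g⁻¹)) * ((g * (y * (κ₃ * κ₁))) * d * (g * (y * (κ₃ * κ₁)))⁻¹) *
            (m₁ * (g * w * g⁻¹))⁻¹ := by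
        show κ * (g * (y * κ₁) * d * (g * (y * κ₁))⁻¹) * κ⁻¹ = _
        calc κ * (g * (y * κ₁) * d * (g * (y * κ₁))⁻¹) * κ⁻¹ =
            (κ * (g * (y * κ₁))) * d * (κ * (g * (y * κ₁)))⁻¹ := by group
          _ = _ := by rw [e1]; group
      rw [e2]
      have hn : m₁ * (g * w * g⁻¹) ∈ N ⊔ EE D (GP g (S j) (K (j + 1)) n₀) :=
        mul_mem (Subgroup.mem_sup_left hm₁) (Subgroup.mem_sup_right
          (conj_GP (EE_mono (PP_mono (le_of_lt ha)) hw)))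
      refine mul_mem (mul_mem hn (Subgroup.mem_sup_right (mem_EE ?_ hd))) (inv_mem hn)
      exact ⟨_, ⟨a, ha, y, hy, _, mul_mem hκ₃ hκ₁, rfl⟩, rfl⟩
  exact hle hm

variable {s : ℕ → G} (hs : ∀ n, s n ∈ S j)

omit st hgood in
include hs in
lemma rel_seg {l n : ℕ} (hl : l < n₀) (hn : n < n₀ + l) :
    ∃ m < n₀, (hh s l)⁻¹ * hh s n ∈ (S j) ^ m := by
  rcases le_total l n with hln | hnl
  · obtain ⟨m, rfl⟩ := Nat.exists_eq_add_of_le hln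
    exact ⟨m, by omega, hh_seg hs l m⟩
  · obtain ⟨m, rfl⟩ := Nat.exists_eq_add_of_le hnl
    refine ⟨m, by omega, ?_⟩
    have h1 := inv_mem_pow (h.sym j hj) (hh_seg hs n m)
    have e : ((hh s n)⁻¹ * hh s (n + m))⁻¹ = (hh s (n + m))⁻¹ * hh s n := by group
    rw [e] at h1
    exact h1

omit hgood in
include hs in
lemma rel_pos {l n : ℕ} (hl : l < n₀) (hn : n ≤ n₀ + l) :
    ∃ m ∈ N, ∃ w ∈ EE D (PP (S j) (K (j + 1)) n₀), ∃ κ ∈ K (j + 1),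
      (hh s l)⁻¹ * g * hh s n = m * g * w * ((hh s l)⁻¹ * hh s n) * κ := by
  have hz : (hh s l)⁻¹ ∈ (S j) ^ l := inv_mem_pow (h.sym j hj) (hh_mem hs l)
  obtain ⟨m, hm, w, hw, κ, hκ, h1⟩ := st.word h hj l _ hz
  obtain ⟨v, hv, κ', hκ', h2⟩ := push_path h hj hs (j + 1) le_rfl (by omega) n κ hκ
  refine ⟨m, hm, w * ((hh s l)⁻¹ * v * (hh s l)⁻¹⁻¹), mul_mem
    (EE_mono (PP_mono (le_of_lt hl)) hw) ?_, κ', hκ', ?_⟩
  · refine EE_conj ?_ hv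
    rintro _ ⟨a, ha, κ₁, hκ₁, rfl⟩
    obtain ⟨b, hb, h3⟩ := rel_seg h hj hs hl (show a < n₀ + l by omega)
    exact ⟨b, hb, _, h3, κ₁, hκ₁, by group⟩
  · calc (hh s l)⁻¹ * g * hh s n = ((hh s l)⁻¹ * g) * hh s n := by group
      _ = m * g * w * (hh s l)⁻¹ * (κ * hh s n) := by rw [h1]; group
      _ = _ := by rw [h2]; group

include hs in
/-- relative positions in earlier blocks are good -/
lemma cross {l n : ℕ} (hl : l < n₀) (hn : n < n₀ + l) {a b : G} (ha : a ∈ K (j + 1))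
    (hb : b ∈ K (j + 1)) : ∃ x ∈ N ⊔ EE D (GP g (S j) (K (j + 1)) n₀), ∃ m < n₀,
      ∃ y ∈ (S j) ^ m, ∃ κ ∈ K (j + 1), a * ((hh s l)⁻¹ * g * hh s n) * b = x * (g * (y * κ)) := by
  set N' := N ⊔ EE D (GP g (S j) (K (j + 1)) n₀) with hN'
  obtain ⟨m, hm, w, hw, κ, hκ, h1⟩ := rel_pos h hj st hs hl (le_of_lt hn)
  obtain ⟨c, hc, hy⟩ := rel_seg h hj hs hl hn
  obtain ⟨m₂, hm₂, a₂, ha₂, h2⟩ := st.left' h (by omega : j ≤ j + 1) (by omega) ha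
  obtain ⟨w₃, hw₃, a₃, ha₃, h3⟩ := push_word h hj c a₂ ha₂ _ hy
  have hmw : m * (g * w * g⁻¹) ∈ N' :=
    mul_mem (Subgroup.mem_sup_left hm) (Subgroup.mem_sup_right (conj_GP hw))
  refine ⟨(a * (m * (g * w * g⁻¹)) * a⁻¹) * (m₂ * (g * w₃ * g⁻¹)),
    mul_mem (N'_nrm h hj st hgood ha hmw) (mul_mem (Subgroup.mem_sup_left hm₂)
      (Subgroup.mem_sup_right (conj_GP (EE_mono (PP_mono (le_of_lt hc)) hw₃)))),
    c, hc, _, hy, a₃ * κ * b, mul_mem (mul_mem ha₃ hκ) hb, ?_⟩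
  rw [h1]
  calc a * (m * g * w * ((hh s l)⁻¹ * hh s n) * κ) * b =
      (a * (m * (g * w * g⁻¹)) * a⁻¹) * (a * g) * ((hh s l)⁻¹ * hh s n) * κ * b := by group
    _ = (a * (m * (g * w * g⁻¹)) * a⁻¹) * m₂ * g * (a₂ * ((hh s l)⁻¹ * hh s n)) * κ * b := by
        rw [h2]; group
    _ = _ := by rw [h3]; group

variable (hper : ∀ i, s (n₀ + i) = s i)

include hs hper in
/-- the new relative position is bad -/
lemma new_bad {l : ℕ} (hl : l < n₀)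
    (hbad : ∃ κ ∈ K (j + 1), ∃ d ∈ D,
      (g * (hh s n₀ * κ)) * d * (g * (hh s n₀ * κ))⁻¹ ∉ Z) :
    ∃ κ ∈ K (j + 1), ∃ d ∈ D, (((hh s l)⁻¹ * g * hh s (n₀ + l)) * κ) * d *
      (((hh s l)⁻¹ * g * hh s (n₀ + l)) * κ)⁻¹ ∉ Z := by
  set N' := N ⊔ EE D (GP g (S j) (K (j + 1)) n₀) with hN'
  obtain ⟨m, hm, w, hw, κ, hκ, h1⟩ := rel_pos h hj st hs hl le_rfl
  obtain ⟨κb, hκb, d, hd, hbd⟩ := hbad
  have hr : (hh s l)⁻¹ * hh s n₀ ∈ (S j) ^ (n₀ - l) := by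
    have h2 := hh_seg hs l (n₀ - l)
    have e : l + (n₀ - l) = n₀ := by omega
    rwa [e] at h2
  obtain ⟨w', hw', κ', hκ', h2⟩ := swap_words h hj (n₀ - l) l _ hr _ (hh_mem hs l)
  have e0 : n₀ - l + l = n₀ := by omega
  rw [e0] at hw'
  have h3 : (hh s l)⁻¹ * hh s (n₀ + l) = w' * hh s n₀ * κ' := by
    rw [hh_period hper]
    calc (hh s l)⁻¹ * (hh s n₀ * hh s l) = ((hh s l)⁻¹ * hh s n₀) * hh s l := by group
      _ = _ := by rw [h2]; group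
  refine ⟨(κ' * κ)⁻¹ * κb, mul_mem (inv_mem (mul_mem hκ' hκ)) hκb, d, hd, ?_⟩
  intro hcon
  apply hbd
  have hx : m * (g * (w * w') * g⁻¹) ∈ Z := N'_le h hj st hgood
    (mul_mem (Subgroup.mem_sup_left hm) (Subgroup.mem_sup_right (conj_GP (mul_mem hw hw'))))
  have e1 : ((hh s l)⁻¹ * g * hh s (n₀ + l)) * ((κ' * κ)⁻¹ * κb) =
      (m * (g * (w * w') * g⁻¹)) * (g * (hh s n₀ * κb)) := by
    rw [h1, h3]; group
  rw [e1] at hcon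
  have e2 : (g * (hh s n₀ * κb)) * d * (g * (hh s n₀ * κb))⁻¹ =
      (m * (g * (w * w') * g⁻¹))⁻¹ * ((m * (g * (w * w') * g⁻¹)) * (g * (hh s n₀ * κb)) * d *
        ((m * (g * (w * w') * g⁻¹)) * (g * (hh s n₀ * κb)))⁻¹) *
        (m * (g * (w * w') * g⁻¹)) := by group
  rw [e2]
  exact mul_mem (mul_mem (inv_mem hx) hcon) hx

include hn₀ hs in
/-- the new state -/
lemma new_state {l : ℕ} (hl : l < n₀) :
    St D S K k Z (j + 1) ((hh s l)⁻¹ * g * hh s (n₀ + l))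
      (N ⊔ EE D (GP g (S j) (K (j + 1)) n₀)) := by
  set N' := N ⊔ EE D (GP g (S j) (K (j + 1)) n₀) with hN'
  have hE1 : EE D (K (j + 1) : Set G) ≤ N' := by
    rcases st.typ with hg | hE
    · refine le_trans ?_ le_sup_right
      refine EE_mono ?_
      intro κ hκ
      exact ⟨κ, ⟨0, hn₀, 1, by simp, κ, hκ, by group⟩, by rw [hg]; group⟩
    · refine le_trans (EE_mono ?_) (hE.trans le_sup_left)
      exact_mod_cast h.K_succ_le hj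
  -- positions near the origin
  have hW : EE D (PP (S j) (K (j + 1)) n₀) ≤ N' := by
    rcases st.typ with hg | hE
    · refine le_trans ?_ le_sup_right
      refine EE_mono ?_
      intro κ hκ
      exact ⟨κ, hκ, by rw [hg]; group⟩
    · refine le_trans (EE_mono ?_) (hE.trans le_sup_left)
      rintro _ ⟨a, ha, y, hy, κ, hκ, rfl⟩
      exact mul_mem (h.S_pow_sub hj a y hy) (h.K_succ_le hj hκ)
  refine ⟨N'_le h hj st hgood, fun κ hκ m hm => N'_nrm h hj st hgood hκ hm, ?_, Or.inr hE1⟩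
  intro i hji hik t ht
  set z := hh s l with hz
  set z' := hh s (n₀ + l) with hz'
  have hKi1 : K (i + 1) ≤ K (j + 1) := h.K_le (by omega) (by omega)
  have htK : t ∈ K (j + 1) := h.K_le hji (by omega) (h.S_sub hik ht)
  -- step 1: `t z⁻¹`
  have hzm : z⁻¹ ∈ (S j) ^ l := inv_mem_pow (h.sym j hj) (hh_mem hs l)
  obtain ⟨s₁, hs₁, hs₁z⟩ := exists_letters (S j) (h.one j hj) l _ hzm
  obtain ⟨w₁, hw₁, κ₁, hκ₁, h1⟩ := pushS_path h hj hs₁ hji hik ht l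
  rw [hs₁z] at h1
  have hw₁N : w₁ ∈ N' := by
    refine hW (EE_mono ?_ hw₁)
    rintro _ ⟨a, ha, κ, hκ, rfl⟩
    exact ⟨a, by omega, _, hh_mem hs₁ a, κ, hκ, rfl⟩
  -- step 2: through `g`
  obtain ⟨m₂, hm₂, κ₂, hκ₂, κ₃, hκ₃, h2⟩ := st.com i (by omega) hik t ht
  obtain ⟨m₄, hm₄, κ₄, hκ₄, h4⟩ := st.left' h (by omega : j ≤ i + 1) (by omega) hκ₁
  -- step 3: `κ₃ z'`
  obtain ⟨v₅, hv₅, κ₅, hκ₅, h5⟩ := push_path h hj hs (i + 1) (by omega) (by omega) (n₀ + l) κ₃ hκ₃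
  -- step 4: `t z'`
  obtain ⟨v₆, hv₆, κ₆, hκ₆, h6⟩ := pushS_path h hj hs hji hik ht (n₀ + l)
  -- step 5: `(κ₄ κ₂) z'`
  obtain ⟨v₇, hv₇, κ₇, hκ₇, h7⟩ := push_path h hj hs (i + 1) (by omega) (by omega) (n₀ + l)
    (κ₄ * κ₂) (mul_mem hκ₄ hκ₂)
  rw [← hz'] at h5 h6 h7
  have hκ42 : κ₄ * κ₂ ∈ K (j + 1) := hKi1 (mul_mem hκ₄ hκ₂)
  have hzK : z ∈ K j := h.S_pow_sub hj l z (hh_mem hs l)
  have hκ₁' : κ₁ ∈ K j := h.K_succ_le hj (hKi1 hκ₁)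
  -- the element of `V`
  set V := EE D (PV s (K (j + 1)) (n₀ + l)) with hV
  set w := (κ₄ * κ₂ * t) * v₅ * (κ₄ * κ₂ * t)⁻¹ * ((κ₄ * κ₂) * v₆ * (κ₄ * κ₂)⁻¹) * v₇ with hw
  have hwV : w ∈ V := by
    refine mul_mem (mul_mem ?_ ?_) hv₇
    · exact norm_V h hj hs (mul_mem hκ42 htK) hv₅
    · exact norm_V h hj hs hκ42 hv₆
  have hwN : (z⁻¹ * g) * w * (z⁻¹ * g)⁻¹ ∈ N' := by
    refine conj_mem_of ?_ hwV
    rintro _ ⟨a, ha, κ, hκ, rfl⟩ d hd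
    obtain ⟨x, hx, b, hb, y, hy, κ', hκ', h8⟩ := cross h hj st hgood hs hl ha
      (one_mem (K (j + 1))) hκ
    have e : (z⁻¹ * g) * (hh s a * κ) = x * (g * (y * κ')) := by
      rw [← h8, hz]; group
    have e2 : ((z⁻¹ * g) * (hh s a * κ)) * d * ((z⁻¹ * g) * (hh s a * κ))⁻¹ =
        x * ((g * (y * κ')) * d * (g * (y * κ'))⁻¹) * x⁻¹ := by
      rw [e]; group
    rw [e2]
    exact mul_mem (mul_mem hx (Subgroup.mem_sup_right (mem_EE ⟨_, ⟨b, hb, y, hy, κ', hκ', rfl⟩,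
      rfl⟩ hd))) (inv_mem hx)
  have hm24 : z⁻¹ * (κ₁ * m₂ * κ₁⁻¹ * m₄) * z⁻¹⁻¹ ∈ N' :=
    Subgroup.mem_sup_left (st.nrm _ (inv_mem hzK) _ (mul_mem (st.nrm _ hκ₁' _ hm₂) hm₄))
  refine ⟨w₁ * (z⁻¹ * (κ₁ * m₂ * κ₁⁻¹ * m₄) * z⁻¹⁻¹) * ((z⁻¹ * g) * w * (z⁻¹ * g)⁻¹),
    mul_mem (mul_mem hw₁N hm24) hwN, κ₇ * κ₆, mul_mem hκ₇ hκ₆, κ₅, hκ₅, ?_⟩
  calc t * (z⁻¹ * g * z') = (t * z⁻¹) * g * z' := by group
    _ = w₁ * z⁻¹ * κ₁ * (t * g) * z' := by rw [h1]; group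
    _ = w₁ * z⁻¹ * (κ₁ * m₂ * κ₁⁻¹) * (κ₁ * g) * κ₂ * t * κ₃ * z' := by rw [h2]; group
    _ = w₁ * z⁻¹ * (κ₁ * m₂ * κ₁⁻¹) * m₄ * g * κ₄ * κ₂ * t * (κ₃ * z') := by rw [h4]; group
    _ = w₁ * z⁻¹ * (κ₁ * m₂ * κ₁⁻¹) * m₄ * g * ((κ₄ * κ₂ * t) * v₅ * (κ₄ * κ₂ * t)⁻¹) *
          (κ₄ * κ₂) * (t * z') * κ₅ := by rw [h5]; group
    _ = w₁ * z⁻¹ * (κ₁ * m₂ * κ₁⁻¹) * m₄ * g * ((κ₄ * κ₂ * t) * v₅ * (κ₄ * κ₂ * t)⁻¹) *
          ((κ₄ * κ₂) * v₆ * (κ₄ * κ₂)⁻¹) * ((κ₄ * κ₂) * z') * κ₆ * t * κ₅ := by rw [h6]; group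
    _ = w₁ * z⁻¹ * (κ₁ * m₂ * κ₁⁻¹) * m₄ * g * ((κ₄ * κ₂ * t) * v₅ * (κ₄ * κ₂ * t)⁻¹) *
          ((κ₄ * κ₂) * v₆ * (κ₄ * κ₂)⁻¹) * (v₇ * z' * κ₇) * κ₆ * t * κ₅ := by rw [h7]
    _ = _ := by rw [hw]; group

end step

end Pool.Agent.K9h38.GG
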