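import Pool.Agent.K9h38.GG.Rec

set_option autoImplicit false
set_option linter.unusedSectionVars false

namespace Pool.Agent.K9h38.GG

open Pool.Agent.N600.G3 (hh)
open Pool.Agent.N918.G3 (hh_seg hh_mem inv_mem_pow hh_period exists_letters hh_congr)
open scoped Pointwise

universe u

variable {G : Type u} [Group G]

/-- translate a triple -/
def tr3 (a b : G) (p : G × G × G) : G × G × G := (a * p.1, b * p.2.1, p.2.2)

/-- concatenation of the systems of the blocks -/
def SL (z z' : ℕ → G) (L : ℕ → List (G × G × G)) : ℕ → List (G × G × G)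
  | 0 => []
  | m + 1 => (L m).map (tr3 (z m) (z' m)) ++ SL z z' L m

variable {z z' : ℕ → G} {L : ℕ → List (G × G × G)}

lemma SL_fst (m : ℕ) : (SL z z' L m).map (fun p => p.1) =
    BL z (fun l => (L l).map (fun p => p.1)) m := by
  induction m with
  | zero => rfl
  | succ m ih =>
    show (((L m).map (tr3 (z m) (z' m)) ++ SL z z' L m)).map (fun p => p.1) =
      ((L m).map (fun p => p.1)).map (fun a => z m * a) ++ BL z _ m
    rw [List.map_append, ih, List.map_map, List.map_map]
    rfl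

lemma SL_snd (m : ℕ) : (SL z z' L m).map (fun p => p.2.1) =
    BL z' (fun l => (L l).map (fun p => p.2.1)) m := by
  induction m with
  | zero => rfl
  | succ m ih =>
    show (((L m).map (tr3 (z m) (z' m)) ++ SL z z' L m)).map (fun p => p.2.1) =
      ((L m).map (fun p => p.2.1)).map (fun a => z' m * a) ++ BL z' _ m
    rw [List.map_append, ih, List.map_map, List.map_map]
    rfl

lemma mem_SL {m : ℕ} {p : G × G × G} : p ∈ SL z z' L m ↔
    ∃ l < m, ∃ q ∈ L l, p = tr3 (z l) (z' l) q := by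
  induction m with
  | zero => simp [SL]
  | succ m ih =>
    show p ∈ (L m).map (tr3 (z m) (z' m)) ++ SL z z' L m ↔ _
    rw [List.mem_append, ih, List.mem_map]
    constructor
    · rintro (⟨q, hq, rfl⟩ | ⟨l, hl, q, hq, rfl⟩)
      · exact ⟨m, by omega, q, hq, rfl⟩
      · exact ⟨l, by omega, q, hq, rfl⟩
    · rintro ⟨l, hl, q, hq, rfl⟩
      rcases Nat.lt_succ_iff_lt_or_eq.1 hl with hl | rfl
      · exact Or.inr ⟨l, hl, q, hq, rfl⟩
      · exact Or.inl ⟨q, hq, rfl⟩

lemma SL_length (m : ℕ) : (SL z z' L m).length = ∑ l ∈ Finset.range m, (L l).length := by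
  induction m with
  | zero => rfl
  | succ m ih =>
    show ((L m).map (tr3 (z m) (z' m)) ++ SL z z' L m).length = _
    rw [List.length_append, List.length_map, ih, Finset.sum_range_succ, add_comm]

lemma SL_pairwise {R : (G × G × G) → (G × G × G) → Prop} (m : ℕ)
    (h1 : ∀ l < m, (L l).Pairwise (fun p q => R (tr3 (z l) (z' l) p) (tr3 (z l) (z' l) q)))
    (h2 : ∀ l' l, l' < l → l < m → ∀ p ∈ L l, ∀ q ∈ L l',
      R (tr3 (z l) (z' l) p) (tr3 (z l') (z' l') q)) :
    (SL z z' L m).Pairwise R := by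
  induction m with
  | zero => exact List.Pairwise.nil
  | succ m ih =>
    show ((L m).map (tr3 (z m) (z' m)) ++ SL z z' L m).Pairwise R
    rw [List.pairwise_append, List.pairwise_map]
    refine ⟨h1 m (by omega), ih (fun l hl => h1 l (by omega))
      (fun l' l hl' hl => h2 l' l hl' (by omega)), ?_⟩
    intro a ha b hb
    obtain ⟨p, hp, rfl⟩ := List.mem_map.1 ha
    obtain ⟨l, hl, q, hq, rfl⟩ := mem_SL.1 hb
    exact h2 l m hl (by omega) p hp q hq

variable {D : Set G} {S : ℕ → Set G} {K : ℕ → Subgroup G} {k : ℕ} {Z : Subgroup G}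

/-- if the positions `g y κ` are good then `g K_j` is good -/
lemma good_all (h : Lev D S K k) {j : ℕ} (hj : j < k) {g : G}
    (hall : ∀ n, ∀ y ∈ (S j) ^ n, ∀ κ ∈ K (j + 1), ∀ d ∈ D,
      (g * (y * κ)) * d * (g * (y * κ))⁻¹ ∈ Z) :
    ∀ κ ∈ K j, ∀ d ∈ D, (g * κ) * d * (g * κ)⁻¹ ∈ Z := by
  have key : ∀ x ∈ Subgroup.closure (S j ∪ (K (j + 1) : Set G)),
      ∃ n, ∃ w ∈ EE D (PP (S j) (K (j + 1)) n), ∃ y ∈ (S j) ^ n, ∃ κ' ∈ K (j + 1),
        x = w * (y * κ') := by
    have hstep : ∀ x : G, (∃ n, ∃ w ∈ EE D (PP (S j) (K (j + 1)) n), ∃ y ∈ (S j) ^ n,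
        ∃ κ' ∈ K (j + 1), x = w * (y * κ')) → ∀ t ∈ S j ∪ (K (j + 1) : Set G),
        ∃ n, ∃ w ∈ EE D (PP (S j) (K (j + 1)) n), ∃ y ∈ (S j) ^ n, ∃ κ' ∈ K (j + 1),
          x * t = w * (y * κ') := by
      rintro x ⟨n, w, hw, y, hy, κ, hκ, rfl⟩ t (ht | ht)
      · obtain ⟨e, he, κ', hκ', h1⟩ := h.push' ht le_rfl (by omega) hκ
        refine ⟨n + 1, w * (y * e * y⁻¹), mul_mem (EE_mono (PP_mono (by omega)) hw)
          (conj_K hy he), y * t, ?_, κ', hκ', ?_⟩
        · rw [pow_succ]; exact Set.mul_mem_mul hy ht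
        · calc w * (y * κ) * t = w * y * (κ * t) := by group
            _ = _ := by rw [h1]; group
      · exact ⟨n, w, hw, y, hy, κ * t, mul_mem hκ ht, by group⟩
    intro x hx
    induction hx using Subgroup.closure_induction_right with
    | one => exact ⟨0, 1, one_mem _, 1, by simp, 1, one_mem _, by group⟩
    | mul_right x hx t ht ih => exact hstep x ih t ht
    | mul_inv_cancel x hx t ht ih =>
      refine hstep x ih t⁻¹ ?_
      rcases ht with ht | ht
      · exact Or.inl (h.sym_mem hj ht)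
      · exact Or.inr (inv_mem ht)
  intro κ hκ d hd
  rw [h.Kj j hj] at hκ
  obtain ⟨n, w, hw, y, hy, κ', hκ', rfl⟩ := key κ hκ
  have hgw : g * w * g⁻¹ ∈ Z := by
    refine conj_mem_of ?_ hw
    rintro _ ⟨a, _, y, hy, κ, hκ, rfl⟩ d hd
    exact hall a y hy κ hκ d hd
  have e : (g * (w * (y * κ'))) * d * (g * (w * (y * κ')))⁻¹ =
      (g * w * g⁻¹) * ((g * (y * κ')) * d * (g * (y * κ'))⁻¹) * (g * w * g⁻¹)⁻¹ := by group
  rw [e]
  exact mul_mem (mul_mem hgw (hall n y hy κ' hκ' d hd)) (inv_mem hgw)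

lemma Sys.mono {T D : Set G} (h1 : (1 : G) ∈ T) {ℓ : ℕ} {K₁ K₂ Z : Subgroup G} {c g : G}
    {L : List (G × G × G)} {N N' : ℕ} (hK : K₁ ≤ K₂) (hN : N ≤ N')
    (s : Sys T D ℓ K₁ Z c g L N) : Sys T D ℓ K₂ Z c g L N' :=
  ⟨s.ne, fun p hp => hK (s.memA p hp), fun p hp => hK (s.memB p hp), s.memD, s.bad, s.good,
    s.cc, s.trA.mono h1 hN, s.trB.mono h1 hN⟩

theorem exists_sys (h : Lev D S K k) {T : Set G} (hT : T⁻¹ = T) (h1T : (1 : G) ∈ T)
    (ls : ℕ → ℕ) (hls : ∀ j < k, S j ⊆ T ^ (ls j)) {ℓ : ℕ} {c : G} (hc : c ∈ D)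
    (hcZ : c ∈ Z) : ∀ n j, j + n = k → ∀ (g : G) (N : Subgroup G), St D S K k Z j g N →
      (∃ κ ∈ K j, ∃ d ∈ D, (g * κ) * d * (g * κ)⁻¹ ∉ Z) →
      ∃ L, Sys T D ℓ (K j) Z c g L ((ℓ + 4 * ∑ i ∈ Finset.Ico j k, ls i) * L.length) := by
  classical
  intro n
  induction n with
  | zero =>
    intro j hjn g N st hbad
    have hjk : j = k := by omega
    subst hjk
    obtain ⟨κ, hκ, d, hd, hb⟩ := hbad
    rw [h.Kk, Subgroup.mem_bot] at hκ
    subst hκ
    refine ⟨[(1, 1, d)], by simp, by simp, by simp, by simpa using hd, ?_, by simp, ?_, ?_, ?_⟩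
    · intro p hp
      rw [List.mem_singleton] at hp
      subst hp
      simpa using hb
    · intro _ p hp q hq
      rw [List.mem_singleton] at hp hq
      subst hp; subst hq
      simpa using hcZ
    · refine Tr.mono h1T ?_ tr_single
      simp
    · refine Tr.mono h1T ?_ tr_single
      simp
  | succ n ih =>
    intro j hjn g N st hbad
    have hj : j < k := by omega
    have hsum : ∑ i ∈ Finset.Ico j k, ls i = ls j + ∑ i ∈ Finset.Ico (j + 1) k, ls i :=
      Finset.sum_eq_sum_Ico_succ_bot hj ls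
    set C' := ℓ + 4 * ∑ i ∈ Finset.Ico (j + 1) k, ls i with hC'
    have hC : ℓ + 4 * ∑ i ∈ Finset.Ico j k, ls i = C' + 4 * ls j := by rw [hsum, hC']; ring
    rw [hC]
    have hex : ∃ n₀, ∃ y ∈ (S j) ^ n₀, ∃ κ ∈ K (j + 1), ∃ d ∈ D,
        (g * (y * κ)) * d * (g * (y * κ))⁻¹ ∉ Z := by
      by_contra hcon
      push Not at hcon
      obtain ⟨κ, hκ, d, hd, hb⟩ := hbad
      exact hb (good_all h hj hcon κ hκ d hd)
    obtain ⟨y, hy, hyb⟩ := Nat.find_spec hex
    set n₀ := Nat.find hex with hn₀def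
    have hgood : ∀ m < n₀, ∀ y ∈ (S j) ^ m, ∀ κ ∈ K (j + 1), ∀ d ∈ D,
        (g * (y * κ)) * d * (g * (y * κ))⁻¹ ∈ Z := by
      intro m hm y hy κ hκ d hd
      by_contra hcon
      exact Nat.find_min hex hm ⟨y, hy, κ, hκ, d, hd, hcon⟩
    rcases Nat.eq_zero_or_pos n₀ with hn0 | hn₀
    · -- no path at this level
      rw [hn0, pow_zero, Set.mem_one] at hy
      subst hy
      have st' : St D S K k Z (j + 1) g N := by
        refine ⟨st.le, fun κ hκ => st.nrm κ (h.K_succ_le hj hκ),
          fun i hi => st.com i (by omega), ?_⟩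
        rcases st.typ with hg | hE
        · exact Or.inl hg
        · right
          refine le_trans (EE_mono ?_) hE
          exact_mod_cast h.K_succ_le hj
      have hb' : ∃ κ ∈ K (j + 1), ∃ d ∈ D, (g * κ) * d * (g * κ)⁻¹ ∉ Z := by
        obtain ⟨κ, hκ, d, hd, hb⟩ := hyb
        exact ⟨κ, hκ, d, hd, by simpa using hb⟩
      obtain ⟨L, hL⟩ := ih (j + 1) (by omega) g N st' hb'
      exact ⟨L, hL.mono h1T (h.K_succ_le hj) (Nat.mul_le_mul_right _ (by omega))⟩
    · -- a path with `n₀` letters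
      obtain ⟨s0, hs0, hs0y⟩ := exists_letters (S j) (h.one j hj) n₀ y hy
      let s : ℕ → G := fun i => s0 (i % n₀)
      have hs : ∀ i, s i ∈ S j := fun i => hs0 _
      have hper : ∀ i, s (n₀ + i) = s i := by
        intro i
        show s0 ((n₀ + i) % n₀) = s0 (i % n₀)
        rw [Nat.add_mod_left]
      have hsy : hh s n₀ = y := by
        rw [← hs0y]
        apply hh_congr
        intro i hi
        show s0 (i % n₀) = s0 i
        rw [Nat.mod_eq_of_lt hi]
      have hyb' : ∃ κ ∈ K (j + 1), ∃ d ∈ D,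
          (g * (hh s n₀ * κ)) * d * (g * (hh s n₀ * κ))⁻¹ ∉ Z := by
        rw [hsy]; exact hyb
      have hblock : ∀ l : ℕ, ∃ L : List (G × G × G), l < n₀ →
          Sys T D ℓ (K (j + 1)) Z c ((hh s l)⁻¹ * g * hh s (n₀ + l)) L (C' * L.length) := by
        intro l
        by_cases hl : l < n₀
        · obtain ⟨L, hL⟩ := ih (j + 1) (by omega) ((hh s l)⁻¹ * g * hh s (n₀ + l)) _
            (new_state h hj st hn₀ hgood hs hl) (new_bad h hj st hgood hs hper hl hyb')
          exact ⟨L, fun _ => hL⟩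
        · exact ⟨[], fun h => absurd h hl⟩
      choose L hL using hblock
      set z := hh s with hz
      set z' : ℕ → G := fun m => hh s (n₀ + m) with hz'
      have hlen : (SL z z' L n₀).length = ∑ l ∈ Finset.range n₀, (L l).length := SL_length n₀
      have hpos : ∀ l < n₀, 1 ≤ (L l).length := fun l hl =>
        List.length_pos_of_ne_nil (hL l hl).ne
      have hn₀len : n₀ ≤ (SL z z' L n₀).length := by
        rw [hlen]
        calc n₀ = ∑ l ∈ Finset.range n₀, 1 := by simp
          _ ≤ _ := Finset.sum_le_sum fun l hl => hpos l (Finset.mem_range.1 hl)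
      have hSjT : ∀ x ∈ S j, x⁻¹ ∈ T ^ (ls j) := fun x hx =>
        inv_mem_pow hT (hls j hj hx)
      have hzT : ∀ m, hh s m ∈ T ^ (ls j * m) := by
        intro m
        rw [pow_mul]
        exact Set.pow_subset_pow_left (hls j hj) (hh_mem hs m)
      have hsumN : ∑ l ∈ Finset.range n₀, (C' * (L l).length + ls j) =
          C' * (SL z z' L n₀).length + ls j * n₀ := by
        rw [Finset.sum_add_distrib, ← Finset.mul_sum, hlen, Finset.sum_const, Finset.card_range,
          smul_eq_mul, mul_comm n₀]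
      have hlsn : ls j * n₀ ≤ ls j * (SL z z' L n₀).length := Nat.mul_le_mul_left _ hn₀len
      refine ⟨SL z z' L n₀, ?_, ?_, ?_, ?_, ?_, ?_, ?_, ?_, ?_⟩
      · intro h0
        rw [h0] at hn₀len
        simp at hn₀len
        omega
      · intro p hp
        obtain ⟨l, hl, q, hq, rfl⟩ := mem_SL.1 hp
        exact mul_mem (h.S_pow_sub hj l _ (hh_mem hs l))
          (h.K_succ_le hj ((hL l hl).memA q hq))
      · intro p hp
        obtain ⟨l, hl, q, hq, rfl⟩ := mem_SL.1 hp
        exact mul_mem (h.S_pow_sub hj _ _ (hh_mem hs (n₀ + l)))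
          (h.K_succ_le hj ((hL l hl).memB q hq))
      · intro p hp
        obtain ⟨l, hl, q, hq, rfl⟩ := mem_SL.1 hp
        exact (hL l hl).memD q hq
      · intro p hp
        obtain ⟨l, hl, q, hq, rfl⟩ := mem_SL.1 hp
        have e : (tr3 (z l) (z' l) q).1⁻¹ * g * (tr3 (z l) (z' l) q).2.1 =
            q.1⁻¹ * ((hh s l)⁻¹ * g * hh s (n₀ + l)) * q.2.1 := by
          show (hh s l * q.1)⁻¹ * g * (hh s (n₀ + l) * q.2.1) = _
          group
        rw [e]
        exact (hL l hl).bad q hq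
      · refine SL_pairwise n₀ ?_ ?_
        · intro l hl
          refine (hL l hl).good.imp ?_
          intro p q hpq d hd
          have e : (tr3 (z l) (z' l) p).1⁻¹ * g * (tr3 (z l) (z' l) q).2.1 =
              p.1⁻¹ * ((hh s l)⁻¹ * g * hh s (n₀ + l)) * q.2.1 := by
            show (hh s l * p.1)⁻¹ * g * (hh s (n₀ + l) * q.2.1) = _
            group
          rw [e]
          exact hpq d hd
        · intro l' l hl' hl p hp q hq d hd
          have e : (tr3 (z l) (z' l) p).1⁻¹ * g * (tr3 (z l') (z' l') q).2.1 =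
              p.1⁻¹ * ((hh s l)⁻¹ * g * hh s (n₀ + l')) * q.2.1 := by
            show (hh s l * p.1)⁻¹ * g * (hh s (n₀ + l') * q.2.1) = _
            group
          obtain ⟨x, hx, m, hm, y', hy', κ, hκ, h1⟩ := cross h hj st hgood hs hl
            (show n₀ + l' < n₀ + l by omega) (inv_mem ((hL l hl).memA p hp))
            ((hL l' (by omega)).memB q hq)
          rw [e]
          exact good_of h1 (N'_le h hj st hgood hx) (hgood m hm y' hy' κ hκ) d hd
      · intro hg p hp q hq
        obtain ⟨l, hl, p, hp', rfl⟩ := mem_SL.1 hp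
        obtain ⟨l', hl', q, hq', rfl⟩ := mem_SL.1 hq
        have e : (tr3 (z l) (z' l) p).1⁻¹ * (tr3 (z l') (z' l') q).1 =
            p.1⁻¹ * ((hh s l)⁻¹ * g * hh s l') * q.1 := by
          show (hh s l * p.1)⁻¹ * (hh s l' * q.1) = _
          rw [hg]; group
        obtain ⟨x, hx, m, hm, y', hy', κ, hκ, h1⟩ := cross h hj st hgood hs hl
          (show l' < n₀ + l by omega) (inv_mem ((hL l hl).memA p hp')) ((hL l' hl').memA q hq')
        rw [e]
        exact good_of h1 (N'_le h hj st hgood hx) (hgood m hm y' hy' κ hκ) c hc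
      · intro E hE hET
        rw [SL_fst] at hE ⊢
        have h3 := tr_BL (T := T) (ℓ := ℓ) (ℓ' := ls j) z (fun l => (L l).map (fun p => p.1))
          (fun l => C' * (L l).length) (fun m => by
            have : (z (m + 1))⁻¹ * z m = (s m)⁻¹ := by
              show (hh s m * s m)⁻¹ * hh s m = _
              group
            rw [this]
            exact hSjT _ (hs m)) n₀ (fun l hl => (hL l hl).trA) E hE hET
        rw [hsumN] at h3
        have h4 := hzT n₀
        have h5 : z 0 = 1 := rfl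
        have h6 : cp (BL z (fun l => (L l).map (fun p => p.1)) n₀) E =
            hh s n₀ * ((z n₀)⁻¹ * cp (BL z (fun l => (L l).map (fun p => p.1)) n₀) E * z 0) := by
          rw [h5, hz]; group
        rw [h6]
        refine Set.pow_subset_pow_right h1T (m := ls j * n₀ + (C' * (SL z z' L n₀).length +
          ls j * n₀)) ?_ ?_
        · have e1 : (C' + 4 * ls j) * (SL z z' L n₀).length =
              C' * (SL z z' L n₀).length + 4 * (ls j * (SL z z' L n₀).length) := by ring
          rw [e1]; omega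
        · rw [pow_add]
          exact Set.mul_mem_mul h4 h3
      · intro E hE hET
        rw [SL_snd] at hE ⊢
        have h3 := tr_BL (T := T) (ℓ := ℓ) (ℓ' := ls j) z' (fun l => (L l).map (fun p => p.2.1))
          (fun l => C' * (L l).length) (fun m => by
            have : (z' (m + 1))⁻¹ * z' m = (s (n₀ + m))⁻¹ := by
              show (hh s (n₀ + m) * s (n₀ + m))⁻¹ * hh s (n₀ + m) = _
              group
            rw [this]
            exact hSjT _ (hs (n₀ + m))) n₀ (fun l hl => (hL l hl).trB) E hE hET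
        rw [hsumN] at h3
        have h4 := hzT (n₀ + n₀)
        have h5 := inv_mem_pow hT (hzT n₀)
        have h6 : cp (BL z' (fun l => (L l).map (fun p => p.2.1)) n₀) E =
            hh s (n₀ + n₀) * ((z' n₀)⁻¹ *
              cp (BL z' (fun l => (L l).map (fun p => p.2.1)) n₀) E * z' 0) * (hh s n₀)⁻¹ := by
          have e0 : z' 0 = hh s n₀ := rfl
          have e1 : z' n₀ = hh s (n₀ + n₀) := rfl
          rw [e0, e1]; group
        rw [h6]
        refine Set.pow_subset_pow_right h1T (m := ls j * (n₀ + n₀) +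
          (C' * (SL z z' L n₀).length + ls j * n₀) + ls j * n₀) ?_ ?_
        · have e1 : (C' + 4 * ls j) * (SL z z' L n₀).length =
              C' * (SL z z' L n₀).length + 4 * (ls j * (SL z z' L n₀).length) := by ring
          have e2 : ls j * (n₀ + n₀) = 2 * (ls j * n₀) := by ring
          rw [e1, e2]; omega
        · rw [pow_add, pow_add]
          exact Set.mul_mem_mul (Set.mul_mem_mul h4 h3) h5

end Pool.Agent.K9h38.GG
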