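import Pool.Agent.K9h38.GG.Basic

set_option autoImplicit false
set_option linter.unusedSectionVars false

namespace Pool.Agent.K9h38.GG

open Pool.Agent.N600.G3 (hh)
open scoped Pointwise

universe u

variable {G : Type u} [Group G]

/-- product of the conjugates of the members of `E` by the members of `A` -/
def cp (A E : List G) : G := (List.zipWith (fun a e => a * e * a⁻¹) A E).prod

/-- all products of conjugates, by the members of `A` in this order, of products of `ℓ` elements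
of `T` are products of `N` elements of `T` -/
def Tr (T : Set G) (ℓ : ℕ) (A : List G) (N : ℕ) : Prop :=
  ∀ E : List G, E.length = A.length → (∀ e ∈ E, e ∈ T ^ ℓ) → cp A E ∈ T ^ N

lemma cp_map_left (z : G) : ∀ A E : List G, cp (A.map (fun a => z * a)) E = z * cp A E * z⁻¹ := by
  intro A
  induction A with
  | nil => intro E; simp [cp]
  | cons a A ih =>
    intro E
    cases E with
    | nil => simp [cp]
    | cons e E =>
      have h := ih E
      unfold cp at h ⊢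
      rw [List.map_cons, List.zipWith_cons_cons, List.zipWith_cons_cons, List.prod_cons,
        List.prod_cons, h]
      group

lemma cp_append (A A' E E' : List G) (h : A.length = E.length) :
    cp (A ++ A') (E ++ E') = cp A E * cp A' E' := by
  unfold cp
  rw [List.zipWith_append h, List.prod_append]

/-- concatenation of blocks along a path -/
def BL (z : ℕ → G) (A : ℕ → List G) : ℕ → List G
  | 0 => []
  | m + 1 => (A m).map (fun a => z m * a) ++ BL z A m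

lemma tr_BL {T : Set G} {ℓ ℓ' : ℕ} (z : ℕ → G) (A : ℕ → List G) (N : ℕ → ℕ)
    (hz : ∀ m, (z (m + 1))⁻¹ * z m ∈ T ^ ℓ') : ∀ m : ℕ, (∀ l < m, Tr T ℓ (A l) (N l)) →
    ∀ E : List G, E.length = (BL z A m).length → (∀ e ∈ E, e ∈ T ^ ℓ) →
      (z m)⁻¹ * cp (BL z A m) E * z 0 ∈ T ^ (∑ l ∈ Finset.range m, (N l + ℓ')) := by
  intro m
  induction m with
  | zero =>
    intro _ E hE _
    simp [BL, cp]
  | succ m ih =>
    intro hA E hE hET
    have hlen : (BL z A (m + 1)).length = (A m).length + (BL z A m).length := by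
      show (((A m).map (fun a => z m * a)) ++ BL z A m).length = _
      rw [List.length_append, List.length_map]
    set E₁ := E.take (A m).length with hE₁
    set E₂ := E.drop (A m).length with hE₂
    have hEE : E = E₁ ++ E₂ := (List.take_append_drop _ _).symm
    have hl₁ : E₁.length = (A m).length := by
      rw [hE₁, List.length_take]; omega
    have hl₂ : E₂.length = (BL z A m).length := by
      rw [hE₂, List.length_drop]; omega
    have h1 : cp (BL z A (m + 1)) E = z m * cp (A m) E₁ * (z m)⁻¹ * cp (BL z A m) E₂ := by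
      show cp (((A m).map (fun a => z m * a)) ++ BL z A m) E = _
      rw [hEE, cp_append _ _ _ _ (by rw [List.length_map, hl₁]), cp_map_left]
    have h2 : cp (A m) E₁ ∈ T ^ (N m) := by
      refine hA m (by omega) E₁ hl₁ fun e he => hET e ?_
      rw [hEE]; exact List.mem_append_left _ he
    have h3 := ih (fun l hl => hA l (by omega)) E₂ hl₂ (fun e he => hET e (by
      rw [hEE]; exact List.mem_append_right _ he))
    have h4 : (z (m + 1))⁻¹ * cp (BL z A (m + 1)) E * z 0 =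
        ((z (m + 1))⁻¹ * z m) * cp (A m) E₁ * ((z m)⁻¹ * cp (BL z A m) E₂ * z 0) := by
      rw [h1]; group
    have h5 : (∑ l ∈ Finset.range (m + 1), (N l + ℓ')) =
        ℓ' + N m + ∑ l ∈ Finset.range m, (N l + ℓ') := by
      rw [Finset.sum_range_succ]; ring
    rw [h4, h5, pow_add, pow_add]
    exact Set.mul_mem_mul (Set.mul_mem_mul (hz m) h2) h3

lemma Tr.mono {T : Set G} (h1 : (1 : G) ∈ T) {ℓ : ℕ} {A : List G} {N N' : ℕ} (h : N ≤ N')
    (hA : Tr T ℓ A N) : Tr T ℓ A N' :=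
  fun E hE hET => Set.pow_subset_pow_right h1 h (hA E hE hET)

lemma tr_single {T : Set G} {ℓ : ℕ} : Tr T ℓ [(1 : G)] ℓ := by
  intro E hE hET
  match E, hE with
  | [e], _ =>
    have : cp [(1 : G)] [e] = e := by simp [cp]
    rw [this]
    exact hET e (by simp)

/-- systems of coordinates `p.1` and movers `p.2.1`, `p.2.2` -/
structure Sys (T D : Set G) (ℓ : ℕ) (Kj Z : Subgroup G) (c g : G) (L : List (G × G × G))
    (N : ℕ) : Prop where
  ne : L ≠ []
  memA : ∀ p ∈ L, p.1 ∈ Kj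
  memB : ∀ p ∈ L, p.2.1 ∈ Kj
  memD : ∀ p ∈ L, p.2.2 ∈ D
  bad : ∀ p ∈ L, (p.1⁻¹ * g * p.2.1) * p.2.2 * (p.1⁻¹ * g * p.2.1)⁻¹ ∉ Z
  good : L.Pairwise (fun p q =>
    ∀ d ∈ D, (p.1⁻¹ * g * q.2.1) * d * (p.1⁻¹ * g * q.2.1)⁻¹ ∈ Z)
  cc : g = 1 → ∀ p ∈ L, ∀ q ∈ L, (p.1⁻¹ * q.1) * c * (p.1⁻¹ * q.1)⁻¹ ∈ Z
  trA : Tr T ℓ (L.map (fun p => p.1)) N
  trB : Tr T ℓ (L.map (fun p => p.2.1)) N

/-- states of the recursion -/
structure St (D : Set G) (S : ℕ → Set G) (K : ℕ → Subgroup G) (k : ℕ) (Z : Subgroup G) (j : ℕ)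
    (g : G) (N : Subgroup G) : Prop where
  le : N ≤ Z
  nrm : ∀ κ ∈ K j, ∀ m ∈ N, κ * m * κ⁻¹ ∈ N
  com : ∀ i, j ≤ i → i < k → ∀ s ∈ S i, ∃ m ∈ N, ∃ κ ∈ K (i + 1), ∃ κ' ∈ K (i + 1),
    s * g = m * g * (κ * s * κ')
  typ : g = 1 ∨ EE D (K j) ≤ N

lemma good_of {D : Set G} {Z : Subgroup G} {x y n : G} (e : x = n * y) (hn : n ∈ Z)
    (hy : ∀ d ∈ D, y * d * y⁻¹ ∈ Z) : ∀ d ∈ D, x * d * x⁻¹ ∈ Z := by
  intro d hd
  have : x * d * x⁻¹ = n * (y * d * y⁻¹) * n⁻¹ := by rw [e]; group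
  rw [this]
  exact mul_mem (mul_mem hn (hy d hd)) (inv_mem hn)

section

variable {D : Set G} {S : ℕ → Set G} {K : ℕ → Subgroup G} {k : ℕ} {Z : Subgroup G} {j : ℕ}
  {g : G} {N : Subgroup G}

lemma St.left (h : Lev D S K k) (st : St D S K k Z j g N) : ∀ n i, i + n = k → j ≤ i →
    ∀ κ ∈ K i, ∃ m ∈ N, ∃ κ' ∈ K i, κ * g = m * g * κ' := by
  intro n
  induction n with
  | zero =>
    intro i hi hji κ hκ
    have : i = k := by omega
    subst this
    rw [h.Kk, Subgroup.mem_bot] at hκ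
    exact ⟨1, one_mem _, 1, one_mem _, by rw [hκ]; group⟩
  | succ n ih =>
    intro i hi hji κ hκ
    have hik : i < k := by omega
    have hKi : K i ≤ K j := h.K_le hji (by omega)
    have hKi1 : K (i + 1) ≤ K i := h.K_succ_le hik
    have key : ∀ x ∈ Subgroup.closure (S i ∪ (K (i + 1) : Set G)),
        ∃ m ∈ N, ∃ κ' ∈ K i, x * g = m * g * κ' := by
      intro x hx
      induction hx using Subgroup.closure_induction with
      | mem x hx =>
        rcases hx with hx | hx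
        · obtain ⟨m, hm, κ₁, hκ₁, κ₂, hκ₂, h1⟩ := st.com i hji hik x hx
          exact ⟨m, hm, κ₁ * x * κ₂, mul_mem (mul_mem (hKi1 hκ₁) (h.S_sub hik hx))
            (hKi1 hκ₂), h1⟩
        · obtain ⟨m, hm, κ₂, hκ₂, h2⟩ := ih (i + 1) (by omega) (by omega) x hx
          exact ⟨m, hm, κ₂, hKi1 hκ₂, h2⟩
      | one => exact ⟨1, one_mem _, 1, one_mem _, by group⟩
      | mul x y hx hy ihx ihy =>
        obtain ⟨m, hm, κ₁, hκ₁, h1⟩ := ihx
        obtain ⟨m', hm', κ₂, hκ₂, h2⟩ := ihy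
        have hx' : x ∈ K j := hKi (by rw [h.Kj i hik]; exact hx)
        refine ⟨(x * m' * x⁻¹) * m, mul_mem (st.nrm x hx' m' hm') hm, κ₁ * κ₂,
          mul_mem hκ₁ hκ₂, ?_⟩
        calc x * y * g = x * (y * g) := by group
          _ = x * m' * x⁻¹ * (x * g) * κ₂ := by rw [h2]; group
          _ = _ := by rw [h1]; group
      | inv x hx ihx =>
        obtain ⟨m, hm, κ₁, hκ₁, h1⟩ := ihx
        have hx' : x ∈ K j := hKi (by rw [h.Kj i hik]; exact hx)
        refine ⟨(x⁻¹ * m⁻¹ * x⁻¹⁻¹), st.nrm _ (inv_mem hx') _ (inv_mem hm), κ₁⁻¹,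
          inv_mem hκ₁, ?_⟩
        have h3 : g = m⁻¹ * (x * g) * κ₁⁻¹ := by rw [h1]; group
        calc x⁻¹ * g = x⁻¹ * (m⁻¹ * (x * g) * κ₁⁻¹) := by rw [← h3]
          _ = _ := by group
    exact key κ (by rw [← h.Kj i hik]; exact hκ)

lemma St.left' (h : Lev D S K k) (st : St D S K k Z j g N) {i : ℕ} (hji : j ≤ i) (hi : i ≤ k)
    {κ : G} (hκ : κ ∈ K i) : ∃ m ∈ N, ∃ κ' ∈ K i, κ * g = m * g * κ' :=
  st.left h (k - i) i (by omega) hji κ hκ

lemma St.word (h : Lev D S K k) (hj : j < k) (st : St D S K k Z j g N) : ∀ p : ℕ,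
    ∀ x ∈ (S j) ^ p, ∃ m ∈ N, ∃ w ∈ EE D (PP (S j) (K (j + 1)) p), ∃ κ ∈ K (j + 1),
      x * g = m * g * w * x * κ := by
  intro p
  induction p with
  | zero =>
    intro x hx
    rw [pow_zero, Set.mem_one] at hx
    exact ⟨1, one_mem _, 1, one_mem _, 1, one_mem _, by rw [hx]; group⟩
  | succ p ih =>
    intro x hx
    rw [pow_succ] at hx
    obtain ⟨x', hx', s, hs, rfl⟩ := Set.mem_mul.1 hx
    obtain ⟨m, hm, κ₁, hκ₁, κ₂, hκ₂, h1⟩ := st.com j le_rfl hj s hs
    obtain ⟨e, he, κ₃, hκ₃, h2⟩ := h.push' hs le_rfl (by omega) hκ₁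
    obtain ⟨m', hm', w, hw, κ₄, hκ₄, h3⟩ := ih x' hx'
    obtain ⟨e', he', κ₅, hκ₅, h4⟩ := h.push' hs le_rfl (by omega) hκ₄
    have hxK : x' ∈ K j := h.S_pow_sub hj p x' hx'
    refine ⟨(x' * m * x'⁻¹) * m', mul_mem (st.nrm x' hxK m hm) hm',
      w * (x' * ((κ₄ * e * κ₄⁻¹) * e') * x'⁻¹), mul_mem (EE_mono (PP_mono (by omega)) hw)
        (conj_K hx' (mul_mem (EE_conj (fun p hp => mul_mem hκ₄ hp) he) he')),
      κ₅ * (κ₃ * κ₂), mul_mem hκ₅ (mul_mem hκ₃ hκ₂), ?_⟩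
    calc x' * s * g = x' * (s * g) := by group
      _ = x' * (m * g * ((κ₁ * s) * κ₂)) := by rw [h1]
      _ = (x' * m * x'⁻¹) * (x' * g) * e * s * κ₃ * κ₂ := by rw [h2]; group
      _ = (x' * m * x'⁻¹) * m' * g * w * x' * (κ₄ * e * κ₄⁻¹) * (κ₄ * s) * (κ₃ * κ₂) := by
          rw [h3]; group
      _ = _ := by rw [h4]; group

end

end Pool.Agent.K9h38.GG
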